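import Pool.Agent.Run7.h179.EX.Lim

/-! Compactness of the space of packing lattices, and the exact form. -/

set_option autoImplicit false

namespace Run7.h179.EX

open MeasureTheory Filter Topology Set Metric
open scoped ENNReal
open Pool.Agent.H349R2.Tet Pool.Agent.TH219.DL
open Run7.h361 (iv im red_norm mul_im_col im_det im_mulVec)
open Matrix

theorem lat_eq (b : Fin 3 → V) : lat b = Set.range (fun n : Fin 3 → ℤ => (Matrix.of b)ᵀ *ᵥ iv n) := by
  ext u
  constructor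
  · rintro ⟨z, rfl⟩
    exact ⟨z, mulVec_eq b z⟩
  · rintro ⟨z, rfl⟩
    exact ⟨z, mulVec_eq b z⟩

theorem bdd_basis {κ D : ℝ} (hκ : 0 < κ) (hD : 0 < D) : ∃ R : ℝ, 0 < R ∧ ∀ b : Fin 3 → V, dt b ≠ 0 →
    |dt b| ≤ D → (∀ u ∈ lat b, u ≠ 0 → κ ≤ ‖u‖) →
    ∃ b' : Fin 3 → V, lat b' = lat b ∧ |dt b'| = |dt b| ∧ ∀ i, ‖b' i‖ ≤ R := by
  obtain ⟨K, hK1, hK⟩ := red_norm 3
  have hK0 : 0 < K := by linarith
  obtain ⟨a, ha⟩ : ∃ a : ℝ, a = κ / K / K := ⟨_, rfl⟩
  have ha0 : 0 < a := by rw [ha]; positivity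
  refine ⟨K * (D / (a * a)), by positivity, ?_⟩
  intro b hb hbD hmin
  have hM : ((Matrix.of b)ᵀ).det = dt b := by
    unfold dt
    exact Matrix.det_transpose _
  obtain ⟨σ, U, β, hU, hβ0, hβm, hβp, -, -, he, -⟩ := hK (Matrix.of b)ᵀ (by rw [hM]; exact hb)
  have hU1 : |((U.det : ℤ) : ℝ)| = 1 := by
    rcases Int.isUnit_iff.1 hU with h | h <;> rw [h] <;> simp
  obtain ⟨b', hb'⟩ : ∃ b' : Fin 3 → V, (Matrix.of b')ᵀ = (Matrix.of b)ᵀ * im U :=
    ⟨fun j i => ((Matrix.of b)ᵀ * im U) i j, by ext i j; rfl⟩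
  have hdt' : |dt b'| = |dt b| := by
    have : dt b' = dt b * (U.det : ℝ) := by
      rw [← hM, ← im_det, ← Matrix.det_mul, ← hb']
      unfold dt
      exact (Matrix.det_transpose _).symm
    rw [this, abs_mul, hU1, mul_one]
  have hdt'0 : dt b' ≠ 0 := by
    intro h
    rw [h, abs_zero] at hdt'
    exact hb (abs_eq_zero.1 hdt'.symm)
  have hlat : lat b' = lat b := by
    rw [lat_eq, lat_eq, hb']
    ext u
    constructor
    · rintro ⟨n, rfl⟩
      refine ⟨U *ᵥ n, ?_⟩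
      simp only
      rw [← im_mulVec, Matrix.mulVec_mulVec]
    · rintro ⟨n, rfl⟩
      refine ⟨U⁻¹ *ᵥ n, ?_⟩
      simp only
      rw [← Matrix.mulVec_mulVec, im_mulVec, Matrix.mulVec_mulVec, Matrix.mul_nonsing_inv U hU, Matrix.one_mulVec]
  have hcol : ∀ i j, |b' j (σ i)| ≤ K * β (min i j) := by
    intro i j
    have h1 := he i j
    have h2 : ((Matrix.of b)ᵀ * im U) (σ i) j = b' j (σ i) := by
      rw [← hb']
      rfl
    rwa [h2] at h1
  have h0 : ‖b' 0‖ ≤ K * β 0 := by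
    rw [pi_norm_le_iff_of_nonneg (by have := hβ0 0; positivity)]
    intro i
    have := hcol (σ.symm i) 0
    rwa [Equiv.apply_symm_apply, min_eq_right (Fin.zero_le _)] at this
  have hb0 : b' 0 ≠ 0 := by
    have hli := (dt_ne_zero_iff b').2.mt
    exact ((dt_ne_zero_iff b').1 hdt'0).ne_zero 0
  have hb0l : b' 0 ∈ lat b := by
    rw [← hlat]
    refine ⟨Pi.single 0 1, ?_⟩
    simp [Fin.sum_univ_three]
  have h1 := (hmin _ hb0l hb0).trans h0
  have hβa : ∀ i, a ≤ β i := by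
    intro i
    have h2 := hβm 0 i (Fin.zero_le _)
    rw [ha, div_div, div_le_iff₀ (by positivity)]
    calc κ ≤ K * β 0 := h1
      _ ≤ K * (K * β i) := mul_le_mul_of_nonneg_left h2 hK0.le
      _ = β i * (K * K) := by ring
  have hprod : β 0 * β 1 * β 2 ≤ D := by
    rw [← Fin.prod_univ_three, hβp, hM]
    exact hbD
  have hβD : ∀ i, β i ≤ D / (a * a) := by
    intro i
    rw [le_div_iff₀ (by positivity)]
    refine le_trans ?_ hprod
    have p0 := hβ0 0
    have p1 := hβ0 1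
    have p2 := hβ0 2
    have q0 := hβa 0
    have q1 := hβa 1
    have q2 := hβa 2
    fin_cases i
    · show β 0 * (a * a) ≤ _
      have : a * a ≤ β 1 * β 2 := mul_le_mul q1 q2 ha0.le p1.le
      calc β 0 * (a * a) ≤ β 0 * (β 1 * β 2) := mul_le_mul_of_nonneg_left this p0.le
        _ = _ := by ring
    · show β 1 * (a * a) ≤ _
      have : a * a ≤ β 0 * β 2 := mul_le_mul q0 q2 ha0.le p0.le
      calc β 1 * (a * a) ≤ β 1 * (β 0 * β 2) := mul_le_mul_of_nonneg_left this p1.le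
        _ = _ := by ring
    · show β 2 * (a * a) ≤ _
      have : a * a ≤ β 0 * β 1 := mul_le_mul q0 q1 ha0.le p0.le
      calc β 2 * (a * a) ≤ β 2 * (β 0 * β 1) := mul_le_mul_of_nonneg_left this p2.le
        _ = _ := by ring
  refine ⟨b', hlat, hdt', fun j => ?_⟩
  rw [pi_norm_le_iff_of_nonneg (by positivity)]
  intro i
  have := hcol (σ.symm i) j
  rw [Equiv.apply_symm_apply] at this
  exact this.trans (mul_le_mul_of_nonneg_left (hβD _) hK0.le)

theorem exists_packs {K : Set V} (hK : Body K) : ∃ b : Fin 3 → V, Packs K b := by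
  obtain ⟨R, hR⟩ := hK.1.isBounded.subset_closedBall (0 : V)
  have hR0 : 0 ≤ R := by
    obtain ⟨c, hc⟩ := hK.2.2
    have := hR (interior_subset hc)
    rw [mem_closedBall] at this
    exact dist_nonneg.trans this
  have hdet : dt (fun i : Fin 3 => (Pi.single i (2 * R + 1) : V)) ≠ 0 := by
    have : Matrix.of (fun i : Fin 3 => (Pi.single i (2 * R + 1) : V)) = Matrix.diagonal (fun _ => 2 * R + 1) := by
      ext i j
      simp [Matrix.diagonal_apply, Pi.single_apply, eq_comm]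
    unfold dt
    rw [this, Matrix.det_diagonal]
    simp
    positivity
  refine ⟨fun i => Pi.single i (2 * R + 1), (packs_iff _ _).2 ⟨hdet, ?_⟩⟩
  rintro u ⟨z, hz⟩ hu0 ⟨y, hy, hyu⟩
  have hui : ∀ i, u i = z i * (2 * R + 1) := by
    intro i
    rw [hz]
    fin_cases i <;> simp [Fin.sum_univ_three, Pi.single_apply]
  have hex : ∃ i, z i ≠ 0 := by
    by_contra hcon
    push Not at hcon
    apply hu0
    ext i
    rw [hui, hcon i]
    simp
  obtain ⟨i, hi⟩ := hex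
  have h1 : (1 : ℝ) ≤ |(z i : ℝ)| := by
    have : (1 : ℤ) ≤ |z i| := Int.one_le_abs hi
    exact_mod_cast this
  have h2 : 2 * R + 1 ≤ |u i| := by
    rw [hui, abs_mul, abs_of_pos (by linarith : (0:ℝ) < 2 * R + 1)]
    nlinarith
  have h3 : |u i| ≤ ‖u‖ := norm_le_pi_norm u i
  have h4 : ‖u‖ ≤ 2 * R := by
    have a1 := hR (interior_subset hy)
    have a2 := hR (interior_subset hyu)
    rw [mem_closedBall, dist_zero_right] at a1 a2
    have : u = y - (y - u) := by abel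
    rw [this]
    exact (norm_sub_le _ _).trans (by linarith)
  linarith

theorem dL_pos {K : Set V} (hK : Body K) : 0 < dL K := by
  obtain ⟨b, hb⟩ := exists_packs hK
  have h1 : dens K b ≤ dL K := by
    rw [dL_eq]
    exact le_iSup₂_of_le b hb le_rfl
  refine lt_of_lt_of_le ?_ h1
  rw [dens_eq b hb.1 K hK.1]
  exact ENNReal.div_pos (body_vol hK).1 ENNReal.ofReal_ne_top

/-- **Exact form.** -/
theorem exactL {K : Set V} (hK : Body K) {x : V} (hx : x ∈ K.extremePoints ℝ)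
    (hmin : ∀ r₀ : ℝ, 0 < r₀ → ∃ r : ℝ, 0 < r ∧ r < r₀ ∧ dL K ≤ dL (trunc K x r)) :
    ∃ b : Fin 3 → V, Packs K b ∧ dens K b = dL K ∧ ∃ u ∈ lat b, u ≠ 0 ∧ x - u ∈ K := by
  obtain ⟨c, hc⟩ := hK.2.2
  obtain ⟨ρ, hρ, hball⟩ := Metric.isOpen_iff.1 isOpen_interior c hc
  obtain ⟨hv0, hvt⟩ := body_vol hK
  have hvpos : 0 < (volume K).toReal := ENNReal.toReal_pos hv0 hvt
  have hnorm : ∀ b : Fin 3 → V, Packs K b → ∀ u ∈ lat b, u ≠ 0 → ρ ≤ ‖u‖ := by
    intro b hb u hu hu0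
    by_contra hcon
    push Not at hcon
    refine ((packs_iff K b).1 hb).2 u hu hu0 ⟨c, hc, hball ?_⟩
    rw [mem_ball, dist_eq_norm, sub_sub_cancel_left, norm_neg]
    exact hcon
  have hvol : ∀ b : Fin 3 → V, Packs K b → (volume K).toReal ≤ |dt b| := by
    intro b hb
    have h1 := dens_le_one hK.2.1 hb
    rw [dens_eq b hb.1 K hK.1] at h1
    have hpos : 0 < |dt b| := abs_pos.2 ((packs_iff K b).1 hb).1
    have h2 : volume K ≤ ENNReal.ofReal |dt b| := by
      rwa [ENNReal.div_le_iff (by rw [ne_eq, ENNReal.ofReal_eq_zero, not_le]; exact hpos) ENNReal.ofReal_ne_top,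
        one_mul] at h1
    exact ENNReal.toReal_le_of_le_ofReal hpos.le h2
  obtain ⟨m, hmono, hmem, hmlim⟩ := exists_seq_strictMono_tendsto' (dL_pos hK)
  have hm0 : 0 < m 0 := (hmem 0).1
  have hmt : m 0 ≠ ⊤ := ((hmem 0).2.trans_le (dL_le_one hK)).ne_top
  obtain ⟨D, hD⟩ : ∃ D : ℝ, D = (volume K / m 0).toReal + 1 := ⟨_, rfl⟩
  have hDpos : 0 < D := by rw [hD]; positivity
  have hDb : ∀ b : Fin 3 → V, Packs K b → m 0 < dens K b → |dt b| ≤ D := by
    intro b hb hmb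
    rw [dens_eq b hb.1 K hK.1] at hmb
    have hpos : 0 < |dt b| := abs_pos.2 ((packs_iff K b).1 hb).1
    have hne : ENNReal.ofReal |dt b| ≠ 0 := by rw [ne_eq, ENNReal.ofReal_eq_zero, not_le]; exact hpos
    have h1 : ENNReal.ofReal |dt b| ≤ volume K / m 0 := by
      rw [ENNReal.le_div_iff_mul_le (Or.inl hm0.ne') (Or.inl hmt), mul_comm]
      rw [ENNReal.lt_div_iff_mul_lt (Or.inl hne) (Or.inl ENNReal.ofReal_ne_top)] at hmb
      exact hmb.le
    have hfin : volume K / m 0 ≠ ⊤ := ENNReal.div_ne_top hvt hm0.ne'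
    have h2 : |dt b| ≤ (volume K / m 0).toReal := by
      rw [← ENNReal.ofReal_le_iff_le_toReal hfin]
      exact h1
    rw [hD]
    linarith
  obtain ⟨R, hR, hred⟩ := bdd_basis hρ hDpos
  have hstep : ∀ k : ℕ, ∃ b : Fin 3 → V, Packs K b ∧ m k < dens K b ∧ (∀ i, ‖b i‖ ≤ R) ∧
      ∃ u ∈ lat b, u ≠ 0 ∧ ∃ y ∈ K, dist x (y + u) < 1 / ((k : ℝ) + 1) := by
    intro k
    obtain ⟨b, hb, hbm, u, hu, hu0, y, hy, hd⟩ := mainL hK hx hmin (ε := 1 / ((k : ℝ) + 1)) (by positivity)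
      (hmem k).2
    have hbm0 : m 0 < dens K b := (hmono.monotone (Nat.zero_le k)).trans_lt hbm
    obtain ⟨b', h1, h2, h3⟩ := hred b ((packs_iff K b).1 hb).1 (hDb b hb hbm0) (hnorm b hb)
    have hb' : Packs K b' := by
      rw [packs_iff] at hb ⊢
      refine ⟨fun h => hb.1 ?_, fun w hw => hb.2 w (h1 ▸ hw)⟩
      rw [h, abs_zero] at h2
      exact abs_eq_zero.1 h2.symm
    refine ⟨b', hb', ?_, h3, u, h1 ▸ hu, hu0, y, hy, hd⟩
    rw [dens_eq b' hb'.1 K hK.1, h2, ← dens_eq b hb.1 K hK.1]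
    exact hbm
  choose b hbp hbm hbR u hu hu0 y hy hd using hstep
  obtain ⟨R₁, hR₁⟩ := hK.1.isBounded.subset_closedBall x
  have hub : ∀ k, ‖u k‖ ≤ R₁ + 1 := by
    intro k
    have h1 := hR₁ (hy k)
    rw [mem_closedBall] at h1
    have h2 : ‖u k‖ = dist (y k + u k) (y k) := by rw [dist_eq_norm, add_sub_cancel_left]
    have h3 := dist_triangle (y k + u k) x (y k)
    have h4 := hd k
    have h5 : 1 / ((k : ℝ) + 1) ≤ 1 := by
      rw [div_le_one (by positivity)]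
      linarith [Nat.cast_nonneg (α := ℝ) k]
    rw [dist_comm x] at h4
    rw [dist_comm x (y k)] at h3
    linarith
  have hcomp : IsCompact ((closedBall (0 : Fin 3 → V) R) ×ˢ ((closedBall (0 : V) (R₁ + 1)) ×ˢ K)) :=
    (isCompact_closedBall _ _).prod ((isCompact_closedBall _ _).prod hK.1)
  have hin : ∀ k, ((b k, (u k, y k)) : (Fin 3 → V) × (V × V)) ∈
      ((closedBall (0 : Fin 3 → V) R) ×ˢ ((closedBall (0 : V) (R₁ + 1)) ×ˢ K)) := by
    intro k
    refine ⟨?_, ?_, hy k⟩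
    · rw [mem_closedBall, dist_zero_right, pi_norm_le_iff_of_nonneg hR.le]
      exact hbR k
    · show u k ∈ closedBall (0 : V) (R₁ + 1)
      rw [mem_closedBall, dist_zero_right]
      exact hub k
  obtain ⟨⟨B, U, Y⟩, hmemB, φ, hφ, hlim⟩ := hcomp.tendsto_subseq hin
  have hlb : Tendsto (fun k => b (φ k)) atTop (𝓝 B) := (continuous_fst.tendsto _).comp hlim
  have hlu : Tendsto (fun k => u (φ k)) atTop (𝓝 U) :=
    ((continuous_fst.comp continuous_snd).tendsto _).comp hlim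
  have hly : Tendsto (fun k => y (φ k)) atTop (𝓝 Y) :=
    ((continuous_snd.comp continuous_snd).tendsto _).comp hlim
  have hYK : Y ∈ K := hmemB.2.2
  have hldt : Tendsto (fun k => dt (b (φ k))) atTop (𝓝 (dt B)) := (cont_dt.tendsto _).comp hlb
  have hdtB : (volume K).toReal ≤ |dt B| :=
    ge_of_tendsto' hldt.abs (fun k => hvol _ (hbp _))
  have hdtB0 : dt B ≠ 0 := by
    intro h
    rw [h, abs_zero] at hdtB
    linarith
  have hBp : Packs K B := by
    rw [packs_iff]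
    refine ⟨hdtB0, ?_⟩
    rintro w ⟨n, hn⟩ hw0 ⟨z, hz, hzw⟩
    have hw' : Tendsto (fun k => ∑ i, (n i : ℝ) • b (φ k) i) atTop (𝓝 w) := by
      rw [hn]
      refine tendsto_finsetSum _ fun i _ => ?_
      exact (((continuous_apply i).tendsto _).comp hlb).const_smul _
    have e1 : ∀ᶠ k in atTop, z - ∑ i, (n i : ℝ) • b (φ k) i ∈ interior K :=
      (hw'.const_sub z).eventually_mem (isOpen_interior.mem_nhds hzw)
    have e2 : ∀ᶠ k in atTop, ∑ i, (n i : ℝ) • b (φ k) i ≠ 0 := hw'.eventually_ne hw0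
    obtain ⟨k, h1, h2⟩ := (e1.and e2).exists
    exact ((packs_iff K _).1 (hbp (φ k))).2 _ ⟨n, rfl⟩ h2 ⟨z, hz, h1⟩
  have hdB : dens K B = dL K := by
    apply le_antisymm
    · rw [dL_eq]
      exact le_iSup₂_of_le B hBp le_rfl
    · have h1 : Tendsto (fun k => dens K (b (φ k))) atTop (𝓝 (dens K B)) := by
        rw [dens_eq B hBp.1 K hK.1]
        have h2 : ∀ k, dens K (b (φ k)) = volume K / ENNReal.ofReal |dt (b (φ k))| := fun k =>
          dens_eq _ (hbp (φ k)).1 K hK.1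
        simp only [h2]
        exact ENNReal.Tendsto.const_div (ENNReal.tendsto_ofReal hldt.abs) (Or.inr hvt)
      exact le_of_tendsto_of_tendsto' (hmlim.comp hφ.tendsto_atTop) h1 (fun k => (hbm (φ k)).le)
  have hUlat : U ∈ lat B :=
    lim_lat hlb hlu hldt (fun k => ((packs_iff K _).1 (hbp (φ k))).1) hdtB0 (fun k => hu (φ k))
  have hU0 : U ≠ 0 := by
    have h1 : ρ ≤ ‖U‖ := ge_of_tendsto' hlu.norm (fun k => hnorm _ (hbp _) _ (hu _) (hu0 _))
    intro h
    rw [h, norm_zero] at h1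
    linarith
  have hxe : x = Y + U := by
    have h1 : Tendsto (fun k => dist x (y (φ k) + u (φ k))) atTop (𝓝 (dist x (Y + U))) :=
      tendsto_const_nhds.dist (hly.add hlu)
    have h2 : Tendsto (fun k => 1 / (((φ k : ℕ) : ℝ) + 1)) atTop (𝓝 0) :=
      tendsto_one_div_add_atTop_nhds_zero_nat.comp hφ.tendsto_atTop
    have h3 := le_of_tendsto_of_tendsto' h1 h2 (fun k => (hd (φ k)).le)
    exact dist_le_zero.1 h3
  refine ⟨B, hBp, hdB, U, hUlat, hU0, ?_⟩
  rw [hxe, add_sub_cancel_right]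
  exact hYK

end Run7.h179.EX
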