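import Pool.Agent.Run7.h179.EX.MainD

/-! Compactness of the space of double lattice packings, and the exact form. -/

set_option autoImplicit false

namespace Run7.h179.EX

open MeasureTheory Filter Topology Set Metric
open scoped ENNReal
open Pool.Agent.H349R2.Tet Pool.Agent.TH219.DL
open Run7.h361 (iv im red_norm mul_im_col im_det im_mulVec)
open Matrix

theorem lat_add {b : Fin 3 → V} {u v : V} (hu : u ∈ lat b) (hv : v ∈ lat b) : u + v ∈ lat b := by
  have h1 := pack_sub_mem (pack_zero_mem b) hv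
  have h2 := pack_sub_mem hu h1
  rwa [zero_sub, sub_neg_eq_add] at h2

theorem P2.shift {K : Set V} {v : V} {b : Fin 3 → V} (h : P2 K v b) {s₀ : V} (hs₀ : s₀ ∈ lat b) :
    P2 K (v + s₀) b := by
  refine ⟨h.1, h.2.1, fun s hs x hx y hy hxy => ?_⟩
  refine h.2.2 (s₀ + s) (lat_add hs₀ hs) x hx y hy ?_
  rw [hxy, add_assoc]

theorem P2.congr {K : Set V} {v : V} {b b' : Fin 3 → V} (h : P2 K v b) (hl : lat b' = lat b)
    (hd : |dt b'| = |dt b|) : P2 K v b' := by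
  refine ⟨fun h0 => h.1 ?_, fun s hs => h.2.1 s (hl ▸ hs), fun s hs => h.2.2 s (hl ▸ hs)⟩
  rw [h0, abs_zero] at hd
  exact abs_eq_zero.1 hd.symm

theorem mulVec_eq' (b : Fin 3 → V) (t : V) : (Matrix.of b)ᵀ *ᵥ t = ∑ i, t i • b i := by
  ext k
  simp [Matrix.mulVec, dotProduct, Fin.sum_univ_three, mul_comm]

theorem red_v {b : Fin 3 → V} (hb : dt b ≠ 0) {R : ℝ} (hR : ∀ i, ‖b i‖ ≤ R) (v : V) :
    ∃ s₀ ∈ lat b, ‖v + s₀‖ ≤ 3 * R := by
  obtain ⟨t, ht⟩ : ∃ t : V, v = ∑ i, t i • b i := by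
    refine ⟨(dt b)⁻¹ • cf b v, ?_⟩
    rw [← mulVec_eq', Matrix.mulVec_smul, mul_cf, smul_smul, inv_mul_cancel₀ hb, one_smul]
  refine ⟨∑ i, ((-⌊t i⌋ : ℤ) : ℝ) • b i, ⟨fun i => -⌊t i⌋, rfl⟩, ?_⟩
  have h1 : v + ∑ i, ((-⌊t i⌋ : ℤ) : ℝ) • b i = ∑ i, Int.fract (t i) • b i := by
    rw [ht, ← Finset.sum_add_distrib]
    refine Finset.sum_congr rfl fun i _ => ?_
    rw [← add_smul]
    congr 1
    push_cast
    rw [← sub_eq_add_neg, Int.self_sub_floor]
  rw [h1]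
  refine (norm_sum_le _ _).trans ?_
  rw [Fin.sum_univ_three]
  have h2 : ∀ i, ‖Int.fract (t i) • b i‖ ≤ R := by
    intro i
    rw [norm_smul, Real.norm_of_nonneg (Int.fract_nonneg _)]
    have h3 := Int.fract_lt_one (t i)
    have h4 := Int.fract_nonneg (t i)
    have h5 := norm_nonneg (b i)
    nlinarith [hR i]
  linarith [h2 0, h2 1, h2 2]

theorem exists_P2 {K : Set V} (hK : Body K) : ∃ (v : V) (b : Fin 3 → V), P2 K v b := by
  obtain ⟨R, hR⟩ := hK.1.isBounded.subset_closedBall (0 : V)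
  have hR0 : 0 ≤ R := by
    obtain ⟨c, hc⟩ := hK.2.2
    have := hR (interior_subset hc)
    rw [mem_closedBall] at this
    exact dist_nonneg.trans this
  have hKn : ∀ y ∈ interior K, ‖y‖ ≤ R := by
    intro y hy
    have := hR (interior_subset hy)
    rwa [mem_closedBall, dist_zero_right] at this
  have hdet : dt (fun i : Fin 3 => (Pi.single i (2 * (2 * R + 1)) : V)) ≠ 0 := by
    have : Matrix.of (fun i : Fin 3 => (Pi.single i (2 * (2 * R + 1)) : V)) =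
        Matrix.diagonal (fun _ => 2 * (2 * R + 1)) := by
      ext i j
      simp [Matrix.diagonal_apply, Pi.single_apply, eq_comm]
    unfold dt
    rw [this, Matrix.det_diagonal]
    simp
    positivity
  have hco : ∀ (u : V) (z : Fin 3 → ℤ),
      u = ∑ i, (z i : ℝ) • (fun i : Fin 3 => (Pi.single i (2 * (2 * R + 1)) : V)) i →
      ∀ i, u i = z i * (2 * (2 * R + 1)) := by
    intro u z hz i
    rw [hz]
    fin_cases i <;> simp [Fin.sum_univ_three]
  refine ⟨Pi.single 0 (2 * R + 1), fun i => Pi.single i (2 * (2 * R + 1)), hdet, ?_, ?_⟩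
  · rintro s ⟨z, hz⟩ hs0 x hx y hy hxy
    have hui := hco s z hz
    have hex : ∃ i, z i ≠ 0 := by
      by_contra hcon
      push Not at hcon
      apply hs0
      ext i
      rw [hui, hcon i]
      simp
    obtain ⟨i, hi⟩ := hex
    have h1 : (1 : ℝ) ≤ |(z i : ℝ)| := by
      have : (1 : ℤ) ≤ |z i| := Int.one_le_abs hi
      exact_mod_cast this
    have h2 : 2 * (2 * R + 1) ≤ |s i| := by
      rw [hui, abs_mul, abs_of_pos (by linarith : (0:ℝ) < 2 * (2 * R + 1))]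
      nlinarith
    have h3 : |s i| ≤ ‖s‖ := norm_le_pi_norm s i
    have h4 : ‖s‖ ≤ 2 * R := by
      rw [← hxy]
      exact (norm_sub_le _ _).trans (by linarith [hKn x hx, hKn y hy])
    linarith
  · rintro s ⟨z, hz⟩ x hx y hy hxy
    have hui := hco s z hz 0
    have h1 : (x + y) 0 = (2 * R + 1) * (1 + 2 * (z 0 : ℝ)) := by
      rw [hxy, Pi.add_apply, hui]
      simp
      ring
    have h2 : (1 : ℝ) ≤ |1 + 2 * (z 0 : ℝ)| := by
      have : (1 : ℤ) ≤ |1 + 2 * z 0| := Int.one_le_abs (by omega)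
      exact_mod_cast this
    have h3 : 2 * R + 1 ≤ |(x + y) 0| := by
      rw [h1, abs_mul, abs_of_pos (by linarith : (0:ℝ) < 2 * R + 1)]
      nlinarith
    have h4 : |(x + y) 0| ≤ ‖x + y‖ := norm_le_pi_norm (x + y) 0
    have h5 : ‖x + y‖ ≤ 2 * R := (norm_add_le _ _).trans (by linarith [hKn x hx, hKn y hy])
    linarith

theorem dLs_pos {K : Set V} (hK : Body K) : 0 < dLs K := by
  obtain ⟨v, b, hb⟩ := exists_P2 hK
  refine lt_of_lt_of_le ?_ (le_dLs hK hb)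
  unfold D2
  exact ENNReal.mul_pos (by simp) (ENNReal.div_pos (body_vol hK).1 ENNReal.ofReal_ne_top).ne'

/-- the normalised packings -/
theorem normal {K : Set V} (hK : Body K) {m : ℝ≥0∞} (hm0 : 0 < m) (hmt : m ≠ ⊤) :
    ∃ R : ℝ, 0 < R ∧ ∀ (v : V) (b : Fin 3 → V), P2 K v b → m < D2 K b →
      ∃ (s₀ : V) (b' : Fin 3 → V), P2 K (v + s₀) b' ∧ D2 K b' = D2 K b ∧ lat b' = lat b ∧ s₀ ∈ lat b ∧
        (∀ i, ‖b' i‖ ≤ R) ∧ ‖v + s₀‖ ≤ 3 * R := by
  obtain ⟨c, hc⟩ := hK.2.2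
  obtain ⟨ρ, hρ, hball⟩ := Metric.isOpen_iff.1 isOpen_interior c hc
  obtain ⟨hv0, hvt⟩ := body_vol hK
  have hnorm : ∀ b : Fin 3 → V, Packs K b → ∀ u ∈ lat b, u ≠ 0 → ρ ≤ ‖u‖ := by
    intro b hb u hu hu0
    by_contra hcon
    push Not at hcon
    refine ((packs_iff K b).1 hb).2 u hu hu0 ⟨c, hc, hball ?_⟩
    rw [mem_ball, dist_eq_norm, sub_sub_cancel_left, norm_neg]
    exact hcon
  obtain ⟨D, hD⟩ : ∃ D : ℝ, D = (2 * volume K / m).toReal + 1 := ⟨_, rfl⟩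
  have hDpos : 0 < D := by rw [hD]; positivity
  obtain ⟨R, hR, hred⟩ := bdd_basis hρ hDpos
  refine ⟨R, hR, fun v b hb hmb => ?_⟩
  have hpos : 0 < |dt b| := abs_pos.2 hb.1
  have hne : ENNReal.ofReal |dt b| ≠ 0 := by rw [ne_eq, ENNReal.ofReal_eq_zero, not_le]; exact hpos
  have hdD : |dt b| ≤ D := by
    unfold D2 at hmb
    rw [← mul_div_assoc, ENNReal.lt_div_iff_mul_lt (Or.inl hne) (Or.inl ENNReal.ofReal_ne_top)] at hmb
    have h1 : ENNReal.ofReal |dt b| ≤ 2 * volume K / m := by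
      rw [ENNReal.le_div_iff_mul_le (Or.inl hm0.ne') (Or.inl hmt), mul_comm]
      exact hmb.le
    have hfin : 2 * volume K / m ≠ ⊤ := ENNReal.div_ne_top (ENNReal.mul_ne_top (by simp) hvt) hm0.ne'
    have h2 : |dt b| ≤ (2 * volume K / m).toReal := by
      rw [← ENNReal.ofReal_le_iff_le_toReal hfin]
      exact h1
    rw [hD]
    linarith
  obtain ⟨b', h1, h2, h3⟩ := hred b hb.1 hdD (hnorm b hb.packs)
  have hb' := hb.congr h1 h2
  obtain ⟨s₀, hs₀, hn⟩ := red_v hb'.1 h3 v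
  refine ⟨s₀, b', hb'.shift hs₀, ?_, h1, h1 ▸ hs₀, h3, hn⟩
  unfold D2
  rw [h2]

/-- limits of normalised packings -/
theorem limD {K : Set V} (hK : Body K) {m : ℕ → ℝ≥0∞} (hmlim : Tendsto m atTop (𝓝 (dLs K)))
    {R R₁ R₂ : ℝ} (hR : 0 ≤ R) {b : ℕ → Fin 3 → V} {v u y : ℕ → V} (hP : ∀ k, P2 K (v k) (b k))
    (hm : ∀ k, m k < D2 K (b k)) (hb : ∀ k i, ‖b k i‖ ≤ R) (hv : ∀ k, ‖v k‖ ≤ R₁) (hun : ∀ k, ‖u k‖ ≤ R₂)
    (hu : ∀ k, u k ∈ lat (b k)) (hy : ∀ k, y k ∈ K) :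
    ∃ (φ : ℕ → ℕ) (B : Fin 3 → V) (W U Y : V), StrictMono φ ∧
      Tendsto (fun k => v (φ k)) atTop (𝓝 W) ∧ Tendsto (fun k => u (φ k)) atTop (𝓝 U) ∧
      Tendsto (fun k => y (φ k)) atTop (𝓝 Y) ∧ P2 K W B ∧ D2 K B = dLs K ∧ U ∈ lat B ∧ Y ∈ K := by
  obtain ⟨hv0, hvt⟩ := body_vol hK
  have hvpos : 0 < (volume K).toReal := ENNReal.toReal_pos hv0 hvt
  have hvol : ∀ k, (volume K).toReal ≤ |dt (b k)| := by
    intro k
    have h1 := dens_le_one hK.2.1 (hP k).packs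
    rw [dens_eq (b k) (hP k).packs.1 K hK.1] at h1
    have hpos : 0 < |dt (b k)| := abs_pos.2 (hP k).1
    have h2 : volume K ≤ ENNReal.ofReal |dt (b k)| := by
      rwa [ENNReal.div_le_iff (by rw [ne_eq, ENNReal.ofReal_eq_zero, not_le]; exact hpos) ENNReal.ofReal_ne_top,
        one_mul] at h1
    exact ENNReal.toReal_le_of_le_ofReal hpos.le h2
  have hcomp : IsCompact ((closedBall (0 : Fin 3 → V) R) ×ˢ ((closedBall (0 : V) R₁) ×ˢ
      ((closedBall (0 : V) R₂) ×ˢ K))) :=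
    (isCompact_closedBall _ _).prod ((isCompact_closedBall _ _).prod ((isCompact_closedBall _ _).prod hK.1))
  have hin : ∀ k, ((b k, (v k, (u k, y k))) : (Fin 3 → V) × (V × (V × V))) ∈
      ((closedBall (0 : Fin 3 → V) R) ×ˢ ((closedBall (0 : V) R₁) ×ˢ ((closedBall (0 : V) R₂) ×ˢ K))) := by
    intro k
    refine ⟨?_, ?_, ?_, hy k⟩
    · rw [mem_closedBall, dist_zero_right, pi_norm_le_iff_of_nonneg hR]
      exact hb k
    · show v k ∈ closedBall (0 : V) R₁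
      rw [mem_closedBall, dist_zero_right]
      exact hv k
    · show u k ∈ closedBall (0 : V) R₂
      rw [mem_closedBall, dist_zero_right]
      exact hun k
  obtain ⟨⟨B, W, U, Y⟩, hmemB, φ, hφ, hlim⟩ := hcomp.tendsto_subseq hin
  have hlb : Tendsto (fun k => b (φ k)) atTop (𝓝 B) := (continuous_fst.tendsto _).comp hlim
  have hlv : Tendsto (fun k => v (φ k)) atTop (𝓝 W) :=
    ((continuous_fst.comp continuous_snd).tendsto _).comp hlim
  have hlu : Tendsto (fun k => u (φ k)) atTop (𝓝 U) :=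
    ((continuous_fst.comp (continuous_snd.comp continuous_snd)).tendsto _).comp hlim
  have hly : Tendsto (fun k => y (φ k)) atTop (𝓝 Y) :=
    ((continuous_snd.comp (continuous_snd.comp continuous_snd)).tendsto _).comp hlim
  have hYK : Y ∈ K := hmemB.2.2.2
  have hldt : Tendsto (fun k => dt (b (φ k))) atTop (𝓝 (dt B)) := (cont_dt.tendsto _).comp hlb
  have hdtB : (volume K).toReal ≤ |dt B| :=
    ge_of_tendsto' hldt.abs (fun k => hvol _)
  have hdtB0 : dt B ≠ 0 := by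
    intro h
    rw [h, abs_zero] at hdtB
    linarith
  have hcomb : ∀ n : Fin 3 → ℤ, Tendsto (fun k => ∑ i, (n i : ℝ) • b (φ k) i) atTop (𝓝 (∑ i, (n i : ℝ) • B i)) := by
    intro n
    refine tendsto_finsetSum _ fun i _ => ?_
    exact (((continuous_apply i).tendsto _).comp hlb).const_smul _
  have hBp : P2 K W B := by
    refine ⟨hdtB0, ?_, ?_⟩
    · rintro w ⟨n, hn⟩ hw0 z hz y' hy' hzy
      have hw' := hcomb n
      rw [← hn] at hw'
      have e1 : ∀ᶠ k in atTop, z - ∑ i, (n i : ℝ) • b (φ k) i ∈ interior K := by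
        refine (hw'.const_sub z).eventually_mem (isOpen_interior.mem_nhds ?_)
        have : z - w = y' := by rw [← hzy]; abel
        rw [this]
        exact hy'
      have e2 : ∀ᶠ k in atTop, ∑ i, (n i : ℝ) • b (φ k) i ≠ 0 := hw'.eventually_ne hw0
      obtain ⟨k, h1, h2⟩ := (e1.and e2).exists
      exact (hP (φ k)).2.1 _ ⟨n, rfl⟩ h2 z hz _ h1 (by abel)
    · rintro w ⟨n, hn⟩ z hz y' hy' hzy
      have hw' := hcomb n
      rw [← hn] at hw'
      have e1 : ∀ᶠ k in atTop, v (φ k) + ∑ i, (n i : ℝ) • b (φ k) i - z ∈ interior K := by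
        refine ((hlv.add hw').sub_const z).eventually_mem (isOpen_interior.mem_nhds ?_)
        have : W + w - z = y' := by rw [← hzy]; abel
        rw [this]
        exact hy'
      obtain ⟨k, h1⟩ := e1.exists
      exact (hP (φ k)).2.2 _ ⟨n, rfl⟩ z hz _ h1 (by abel)
  have hdB : D2 K B = dLs K := by
    apply le_antisymm (le_dLs hK hBp)
    have h1 : Tendsto (fun k => D2 K (b (φ k))) atTop (𝓝 (D2 K B)) := by
      unfold D2
      refine ENNReal.Tendsto.const_mul ?_ (Or.inr (by simp))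
      exact ENNReal.Tendsto.const_div (ENNReal.tendsto_ofReal hldt.abs) (Or.inr hvt)
    exact le_of_tendsto_of_tendsto' (hmlim.comp hφ.tendsto_atTop) h1 (fun k => (hm (φ k)).le)
  exact ⟨φ, B, W, U, Y, hφ, hlv, hlu, hly, hBp, hdB,
    lim_lat hlb hlu hldt (fun k => (hP (φ k)).1) hdtB0 (fun k => hu (φ k)), hYK⟩

/-- **Exact form.** -/
theorem exactD {K : Set V} (hK : Body K) {x : V} (hx : x ∈ K.extremePoints ℝ)
    (hmin : ∀ r₀ : ℝ, 0 < r₀ → ∃ r : ℝ, 0 < r ∧ r < r₀ ∧ dLs K ≤ dLs (trunc K x r)) :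
    ∃ (v : V) (b : Fin 3 → V), P2 K v b ∧ D2 K b = dLs K ∧
      ((∃ u ∈ lat b, u ≠ 0 ∧ x - u ∈ K) ∨ ∃ u ∈ lat b, v + u - x ∈ K) := by
  obtain ⟨m, hmono, hmem, hmlim⟩ := exists_seq_strictMono_tendsto' (dLs_pos hK)
  have hm0 : 0 < m 0 := (hmem 0).1
  have hmt : m 0 ≠ ⊤ := ((hmem 0).2.trans_le le_top).ne_top
  obtain ⟨R, hR, hnor⟩ := normal hK hm0 hmt
  obtain ⟨R₁, hR₁⟩ := hK.1.isBounded.subset_closedBall x
  have hKd : ∀ y ∈ K, dist y x ≤ R₁ := fun y hy => by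
    have := hR₁ hy
    rwa [mem_closedBall] at this
  have h1k : ∀ k : ℕ, 1 / ((k : ℝ) + 1) ≤ 1 := by
    intro k
    rw [div_le_one (by positivity)]
    linarith [Nat.cast_nonneg (α := ℝ) k]
  obtain ⟨c, hc⟩ := hK.2.2
  obtain ⟨ρ, hρ, hball⟩ := Metric.isOpen_iff.1 isOpen_interior c hc
  by_cases hI : ∀ k : ℕ, ∃ (v : V) (b : Fin 3 → V), P2 K v b ∧ m k < D2 K b ∧
      ∃ u ∈ lat b, u ≠ 0 ∧ ∃ y ∈ K, dist x (y + u) < 1 / ((k : ℝ) + 1)
  · have hstep : ∀ k : ℕ, ∃ (v : V) (b : Fin 3 → V), P2 K v b ∧ m k < D2 K b ∧ (∀ i, ‖b i‖ ≤ R) ∧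
        ‖v‖ ≤ 3 * R ∧ ∃ u ∈ lat b, u ≠ 0 ∧ ∃ y ∈ K, dist x (y + u) < 1 / ((k : ℝ) + 1) := by
      intro k
      obtain ⟨v, b, hb, hbm, u, hu, hu0, y, hy, hd⟩ := hI k
      obtain ⟨s₀, b', h1, h2, h3, h4, h5, h6⟩ := hnor v b hb ((hmono.monotone (Nat.zero_le k)).trans_lt hbm)
      exact ⟨v + s₀, b', h1, h2 ▸ hbm, h5, h6, u, h3 ▸ hu, hu0, y, hy, hd⟩
    choose v b hP hbm hbR hvR u hu hu0 y hy hd using hstep
    have hub : ∀ k, ‖u k‖ ≤ R₁ + 1 := by
      intro k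
      have h2 : ‖u k‖ = dist (y k + u k) (y k) := by rw [dist_eq_norm, add_sub_cancel_left]
      have h3 := dist_triangle (y k + u k) x (y k)
      have h4 := hd k
      rw [dist_comm x] at h4
      rw [dist_comm x (y k)] at h3
      linarith [h1k k, hKd _ (hy k)]
    obtain ⟨φ, B, W, U, Y, hφ, hlv, hlu, hly, hBp, hdB, hUl, hYK⟩ :=
      limD hK hmlim hR.le hP hbm hbR hvR hub hu hy
    have hU0 : U ≠ 0 := by
      have h1 : ρ ≤ ‖U‖ := ge_of_tendsto' hlu.norm (fun k => by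
        by_contra hcon
        push Not at hcon
        refine (hP (φ k)).2.1 _ (hu _) (hu0 _) c hc (c - u (φ k)) (hball ?_) (by abel)
        rw [mem_ball, dist_eq_norm, sub_sub_cancel_left, norm_neg]
        exact hcon)
      intro h
      rw [h, norm_zero] at h1
      linarith
    have hxe : x = Y + U := by
      have h1 : Tendsto (fun k => dist x (y (φ k) + u (φ k))) atTop (𝓝 (dist x (Y + U))) :=
        tendsto_const_nhds.dist (hly.add hlu)
      have h2 : Tendsto (fun k => 1 / (((φ k : ℕ) : ℝ) + 1)) atTop (𝓝 0) :=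
        tendsto_one_div_add_atTop_nhds_zero_nat.comp hφ.tendsto_atTop
      have h3 := le_of_tendsto_of_tendsto' h1 h2 (fun k => (hd (φ k)).le)
      exact dist_le_zero.1 h3
    refine ⟨W, B, hBp, hdB, Or.inl ⟨U, hUl, hU0, ?_⟩⟩
    rw [hxe, add_sub_cancel_right]
    exact hYK
  · push Not at hI
    obtain ⟨k₀, hk₀⟩ := hI
    have hstep : ∀ k : ℕ, ∃ (v : V) (b : Fin 3 → V), P2 K v b ∧ m k < D2 K b ∧ (∀ i, ‖b i‖ ≤ R) ∧
        ‖v‖ ≤ 3 * R ∧ ∃ u ∈ lat b, ∃ y ∈ K, dist x (v - y + u) < 1 / ((k : ℝ) + 1) := by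
      intro k
      obtain ⟨v, b, hb, hbm, htype⟩ := mainD hK hx hmin
        (ε := min (1 / ((k : ℝ) + 1)) (1 / ((k₀ : ℝ) + 1))) (lt_min (by positivity) (by positivity))
        (max_lt (hmem k).2 (hmem k₀).2)
      have hbm1 := lt_of_le_of_lt (le_max_left _ _) hbm
      have hbm2 := lt_of_le_of_lt (le_max_right _ _) hbm
      rcases htype with ⟨u, hu, hu0, y, hy, hd⟩ | ⟨u, hu, y, hy, hd⟩
      · exact absurd (hd.trans_le (min_le_right _ _)) (not_lt.2 (hk₀ v b hb hbm2 u hu hu0 y hy))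
      · obtain ⟨s₀, b', h1, h2, h3, h4, h5, h6⟩ := hnor v b hb ((hmono.monotone (Nat.zero_le k)).trans_lt hbm1)
        refine ⟨v + s₀, b', h1, h2 ▸ hbm1, h5, h6, u - s₀, ?_, y, hy, ?_⟩
        · rw [h3]
          exact pack_sub_mem hu h4
        · have e1 : v + s₀ - y + (u - s₀) = v - y + u := by abel
          rw [e1]
          exact hd.trans_le (min_le_left _ _)
    choose v b hP hbm hbR hvR u hu y hy hd using hstep
    have hub : ∀ k, ‖u k‖ ≤ 1 + 3 * R + (R₁ + 2 * ‖x‖) := by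
      intro k
      have h2 : u k = (v k - y k + u k - x) - v k + ((y k - x) + (2 : ℝ) • x) := by
        rw [two_smul]; abel
      have h3 : ‖v k - y k + u k - x‖ ≤ 1 := by
        rw [← dist_eq_norm, dist_comm]
        exact (hd k).le.trans (h1k k)
      have h4 : ‖y k - x‖ ≤ R₁ := by
        rw [← dist_eq_norm]
        exact hKd _ (hy k)
      have h5 : ‖(2 : ℝ) • x‖ = 2 * ‖x‖ := by rw [norm_smul]; simp
      rw [h2]
      refine (norm_add_le _ _).trans (add_le_add ((norm_sub_le _ _).trans (add_le_add h3 (hvR k))) ?_)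
      refine (norm_add_le _ _).trans (add_le_add h4 h5.le)
    obtain ⟨φ, B, W, U, Y, hφ, hlv, hlu, hly, hBp, hdB, hUl, hYK⟩ :=
      limD hK hmlim hR.le hP hbm hbR hvR hub hu hy
    have hxe : x = W - Y + U := by
      have h1 : Tendsto (fun k => dist x (v (φ k) - y (φ k) + u (φ k))) atTop (𝓝 (dist x (W - Y + U))) :=
        tendsto_const_nhds.dist ((hlv.sub hly).add hlu)
      have h2 : Tendsto (fun k => 1 / (((φ k : ℕ) : ℝ) + 1)) atTop (𝓝 0) :=
        tendsto_one_div_add_atTop_nhds_zero_nat.comp hφ.tendsto_atTop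
      have h3 := le_of_tendsto_of_tendsto' h1 h2 (fun k => (hd (φ k)).le)
      exact dist_le_zero.1 h3
    refine ⟨W, B, hBp, hdB, Or.inr ⟨U, hUl, ?_⟩⟩
    have e1 : W + U - x = Y := by rw [hxe]; abel
    rw [e1]
    exact hYK

end Run7.h179.EX
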