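import Pool.Agent.TH219.DL.Defs
import Pool.Agent.H349R2.Tet.Dens1
import Pool.Agent.H349R2.Tet.Pack

/-! Cutting off a small piece of a convex body near an extreme point. -/

set_option autoImplicit false

namespace Run7.h179.EX

open MeasureTheory Filter Topology Set Metric
open scoped ENNReal
open Pool.Agent.H349R2.Tet Pool.Agent.TH219.DL

theorem compact_hull {E : Type*} [NormedAddCommGroup E] [NormedSpace ℝ E]
    [FiniteDimensional ℝ E] {s : Set E} (hs : IsCompact s) : IsCompact (convexHull ℝ s) := by
  classical
  rcases s.eq_empty_or_nonempty with rfl | ⟨x0, hx0⟩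
  · rw [convexHull_empty]
    exact isCompact_empty
  obtain ⟨n, hn⟩ : ∃ n, n = Module.finrank ℝ E + 1 := ⟨_, rfl⟩
  have hK : IsCompact ((stdSimplex ℝ (Fin n)) ×ˢ (Set.pi Set.univ (fun _ : Fin n => s))) :=
    (isCompact_stdSimplex ℝ (Fin n)).prod (isCompact_univ_pi fun _ => hs)
  have hcont : Continuous (fun p : (Fin n → ℝ) × (Fin n → E) => ∑ i, p.1 i • p.2 i) := by
    refine continuous_finsetSum _ fun i _ => ?_
    exact ((continuous_apply i).comp continuous_fst).smul ((continuous_apply i).comp continuous_snd)
  have heq : convexHull ℝ s = (fun p : (Fin n → ℝ) × (Fin n → E) => ∑ i, p.1 i • p.2 i) ''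
      ((stdSimplex ℝ (Fin n)) ×ˢ (Set.pi Set.univ (fun _ : Fin n => s))) := by
    apply Set.Subset.antisymm
    · intro x hx
      obtain ⟨ι, hι, z, w, hz, hai, hw0, hw1, hwz⟩ := eq_pos_convex_span_of_mem_convexHull hx
      have hcard : Fintype.card ι ≤ Fintype.card (Fin n) := by
        have h1 := hai.card_le_finrank_succ
        have h2 := Submodule.finrank_le (vectorSpan ℝ (Set.range z))
        rw [Fintype.card_fin, hn]
        omega
      obtain ⟨e⟩ := Function.Embedding.nonempty_of_card_le hcard
      refine ⟨(Function.extend e w 0, Function.extend e z (fun _ => x0)), ⟨⟨?_, ?_⟩, ?_⟩, ?_⟩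
      · intro j
        show (0 : ℝ) ≤ Function.extend e w 0 j
        by_cases hj : ∃ i, e i = j
        · obtain ⟨i, rfl⟩ := hj
          rw [e.injective.extend_apply]
          exact (hw0 i).le
        · rw [Function.extend_apply' _ _ _ hj]
          exact le_rfl
      · rw [← hw1]
        symm
        refine Fintype.sum_of_injective e e.injective _ _ ?_ ?_
        · intro j hj
          show Function.extend e w 0 j = 0
          rw [Function.extend_apply' _ _ _ hj]
          rfl
        · intro i
          show w i = Function.extend e w 0 (e i)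
          rw [e.injective.extend_apply]
      · intro j _
        by_cases hj : ∃ i, e i = j
        · obtain ⟨i, rfl⟩ := hj
          show Function.extend e z (fun _ => x0) (e i) ∈ s
          rw [e.injective.extend_apply]
          exact hz ⟨i, rfl⟩
        · show Function.extend e z (fun _ => x0) j ∈ s
          rw [Function.extend_apply' _ _ _ hj]
          exact hx0
      · rw [← hwz]
        symm
        refine Fintype.sum_of_injective e e.injective _ _ ?_ ?_
        · intro j hj
          show Function.extend e w 0 j • Function.extend e z (fun _ => x0) j = 0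
          rw [Function.extend_apply' w _ _ hj]
          simp
        · intro i
          show w i • z i = Function.extend e w 0 (e i) • Function.extend e z (fun _ => x0) (e i)
          rw [e.injective.extend_apply, e.injective.extend_apply]
    · rintro _ ⟨⟨w, z⟩, ⟨⟨hw0, hw1⟩, hz⟩, rfl⟩
      refine (convex_convexHull ℝ s).sum_mem (fun i _ => hw0 i) hw1 (fun i _ => ?_)
      exact subset_convexHull ℝ s (hz i (Set.mem_univ i))
  rw [heq]
  exact hK.image hcont

theorem body_ne {K : Set V} (hK : Body K) (x : V) : ∃ c ∈ interior K, c ≠ x := by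
  obtain ⟨c, h1, h2⟩ := (dense_compl_singleton x).inter_open_nonempty (interior K) isOpen_interior hK.2.2
  exact ⟨c, h1, h2⟩

theorem body_vol {K : Set V} (hK : Body K) : volume K ≠ 0 ∧ volume K ≠ ⊤ := by
  refine ⟨?_, hK.1.measure_lt_top.ne⟩
  have := isOpen_interior.measure_pos (volume : Measure V) hK.2.2
  exact (lt_of_lt_of_le this (measure_mono interior_subset)).ne'

/-- the convex hull of the part of `K` outside the ball of radius `r` with centre `x` -/
def trunc (K : Set V) (x : V) (r : ℝ) : Set V := convexHull ℝ (K \ ball x r)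

/-- Cutting off a small piece near an extreme point. -/
theorem cut {K : Set V} (hK : Body K) {x : V} (hx : x ∈ K.extremePoints ℝ) :
    ∃ c ∈ K, ∃ D : ℝ, 0 < D ∧ ∀ r : ℝ, 0 < r → 2 * r < D → trunc K x r ⊆ K ∧ Body (trunc K x r) ∧
      x ∉ trunc K x r ∧ K \ ball x r ⊆ trunc K x r ∧
      volume (trunc K x r) < volume K ∧ ∀ y ∈ K, c + (1 - 2 * r / D) • (y - c) ∈ trunc K x r := by
  unfold trunc
  obtain ⟨c, hc, hcx⟩ := body_ne hK x
  have hcK : c ∈ K := interior_subset hc
  have hD : 0 < dist c x := dist_pos.2 hcx
  refine ⟨c, hcK, dist c x, hD, fun r hr hrD => ?_⟩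
  have hcomp : IsCompact (K \ ball x r) := hK.1.diff isOpen_ball
  have hsub : convexHull ℝ (K \ ball x r) ⊆ K := convexHull_min diff_subset hK.2.1
  have hxK' : x ∉ convexHull ℝ (K \ ball x r) := by
    intro h
    have h1 : x ∈ (convexHull ℝ (K \ ball x r)).extremePoints ℝ :=
      inter_extremePoints_subset_extremePoints_of_subset hsub ⟨h, hx⟩
    have h2 := extremePoints_convexHull_subset h1
    exact h2.2 (mem_ball_self hr)
  have hcomp' : IsCompact (convexHull ℝ (K \ ball x r)) := compact_hull hcomp
  have hcin : c ∈ interior (convexHull ℝ (K \ ball x r)) := by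
    have ho : IsOpen (interior K ∩ (closedBall x r)ᶜ) := isOpen_interior.inter isClosed_closedBall.isOpen_compl
    refine mem_interior.2 ⟨interior K ∩ (closedBall x r)ᶜ, ?_, ho, hc, ?_⟩
    · rintro y ⟨h1, h2⟩
      exact subset_convexHull ℝ _ ⟨interior_subset h1, fun h => h2 (ball_subset_closedBall h)⟩
    · rw [mem_compl_iff, mem_closedBall]
      linarith
  have hconv := convex_convexHull ℝ (K \ ball x r)
  have hcK' : c ∈ convexHull ℝ (K \ ball x r) := interior_subset hcin
  refine ⟨hsub, ⟨hcomp', hconv, ⟨c, hcin⟩⟩, hxK', subset_convexHull ℝ _, ?_, ?_⟩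
  · have hU : IsOpen ((convexHull ℝ (K \ ball x r))ᶜ ∩ interior K) := hcomp'.isClosed.isOpen_compl.inter isOpen_interior
    have hUne : ((convexHull ℝ (K \ ball x r))ᶜ ∩ interior K).Nonempty := by
      have hcl : x ∈ closure (interior K) := by
        rw [hK.2.1.closure_interior_eq_closure_of_nonempty_interior hK.2.2]
        exact subset_closure hx.1
      exact mem_closure_iff.1 hcl _ hcomp'.isClosed.isOpen_compl hxK'
    have hpos := hU.measure_pos (volume : Measure V) hUne
    have hdis : Disjoint (convexHull ℝ (K \ ball x r)) ((convexHull ℝ (K \ ball x r))ᶜ ∩ interior K) :=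
      disjoint_compl_right.mono_right inter_subset_left
    have h1 : volume (convexHull ℝ (K \ ball x r)) + volume ((convexHull ℝ (K \ ball x r))ᶜ ∩ interior K) ≤ volume K := by
      rw [← measure_union hdis hU.measurableSet]
      exact measure_mono (union_subset hsub (inter_subset_right.trans interior_subset))
    exact lt_of_lt_of_le (ENNReal.lt_add_right hcomp'.measure_lt_top.ne hpos.ne') h1
  · intro y hy
    have hs1 : 0 < 2 * r / dist c x := by positivity
    have hs2 : 2 * r / dist c x < 1 := by rw [div_lt_one hD]; exact hrD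
    have hsD : 2 * r / dist c x * dist c x = 2 * r := by field_simp
    set s := 2 * r / dist c x with hs
    have hwe : c + (1 - s) • (y - c) = s • c + (1 - s) • y := by
      rw [smul_sub, sub_smul, sub_smul, one_smul, one_smul]
      abel
    by_cases hyb : y ∈ ball x r
    · have hwK : c + (1 - s) • (y - c) ∈ K := by
        rw [hwe]
        exact hK.2.1 hcK hy hs1.le (by linarith) (by ring)
      refine subset_convexHull ℝ _ ⟨hwK, fun hwb => ?_⟩
      rw [mem_ball, dist_eq_norm] at hwb hyb
      have h1 : s • (c - x) = (c + (1 - s) • (y - c) - x) - (1 - s) • (y - x) := by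
        rw [hwe]
        simp only [smul_sub, sub_smul, one_smul]
        abel
      have h2 : ‖s • (c - x)‖ ≤ ‖c + (1 - s) • (y - c) - x‖ + ‖(1 - s) • (y - x)‖ := by
        rw [h1]
        exact norm_sub_le _ _
      rw [norm_smul, norm_smul, Real.norm_of_nonneg hs1.le, Real.norm_of_nonneg (by linarith : (0:ℝ) ≤ 1 - s),
        ← dist_eq_norm c x, hsD] at h2
      have h3 : (1 - s) * ‖y - x‖ ≤ r := by
        have h4 : (1 - s) * ‖y - x‖ ≤ 1 * ‖y - x‖ := mul_le_mul_of_nonneg_right (by linarith) (norm_nonneg _)
        linarith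
      linarith
    · rw [hwe]
      exact hconv hcK' (subset_convexHull ℝ _ ⟨hy, hyb⟩) hs1.le (by linarith) (by ring)

/-- lattice packings have density at most one -/
theorem dens_le_one {A : Set V} (hA : Convex ℝ A) {b : Fin 3 → V} (h : Packs A b) : dens A b ≤ 1 := by
  unfold dens
  refine Filter.limsup_le_of_le (by isBoundedDefault) (Eventually.of_forall fun r => ?_)
  have hcount : Countable (lat b) := by
    have : (lat b) ⊆ Set.range (fun z : Fin 3 → ℤ => ∑ i, (z i : ℝ) • b i) := by
      rintro _ ⟨z, rfl⟩
      exact ⟨z, rfl⟩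
    exact (Set.countable_range _).mono this |>.to_subtype
  have h1 : ∀ u : lat b, volume (tr A u.1 ∩ Bl r) ≤ volume (interior (tr A u.1) ∩ Bl r) := by
    intro u
    have hcv : Convex ℝ (tr A u.1) := by
      have : tr A u.1 = (fun x => u.1 + x) '' A := by
        unfold tr
        exact image_congr fun x _ => add_comm _ _
      rw [this]
      exact hA.translate u.1
    have hfr := hcv.addHaar_frontier (volume : Measure V)
    have hsub : tr A u.1 ∩ Bl r ⊆ (interior (tr A u.1) ∩ Bl r) ∪ frontier (tr A u.1) := by
      rintro y ⟨hy, hy'⟩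
      by_cases hyi : y ∈ interior (tr A u.1)
      · exact Or.inl ⟨hyi, hy'⟩
      · exact Or.inr ⟨subset_closure hy, hyi⟩
    calc volume (tr A u.1 ∩ Bl r) ≤ volume ((interior (tr A u.1) ∩ Bl r) ∪ frontier (tr A u.1)) := measure_mono hsub
      _ ≤ volume (interior (tr A u.1) ∩ Bl r) + volume (frontier (tr A u.1)) := measure_union_le _ _
      _ = _ := by rw [hfr, add_zero]
  have h2 : ∑' u : lat b, volume (tr A u.1 ∩ Bl r) ≤ volume (Bl r) := by
    calc ∑' u : lat b, volume (tr A u.1 ∩ Bl r) ≤ ∑' u : lat b, volume (interior (tr A u.1) ∩ Bl r) :=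
          ENNReal.tsum_le_tsum h1
      _ = volume (⋃ u : lat b, interior (tr A u.1) ∩ Bl r) := by
          rw [measure_iUnion]
          · intro u v huv
            refine Disjoint.mono inter_subset_left inter_subset_left ?_
            exact h.2 u.1 u.2 v.1 v.2 (fun e => huv (Subtype.ext e))
          · exact fun u => isOpen_interior.measurableSet.inter (bl_measurable r)
      _ ≤ volume (Bl r) := measure_mono (iUnion_subset fun u => inter_subset_right)
  exact (ENNReal.div_le_div_right h2 _).trans ENNReal.div_self_le_one

end Run7.h179.EX
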