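import Pool.Agent.Run7.h179.EX.Cpt

/-! Double lattice packings: basic facts. -/

set_option autoImplicit false

namespace Run7.h179.EX

open MeasureTheory Filter Topology Set Metric
open scoped ENNReal
open Pool.Agent.H349R2.Tet Pool.Agent.TH219.DL

/-- `K + u` and `v - K + u`, `u` in the lattice of `b`, have disjoint interiors -/
def P2 (K : Set V) (v : V) (b : Fin 3 → V) : Prop :=
  dt b ≠ 0 ∧ (∀ s ∈ lat b, s ≠ 0 → ∀ x ∈ interior K, ∀ y ∈ interior K, x - y ≠ s) ∧
    ∀ s ∈ lat b, ∀ x ∈ interior K, ∀ y ∈ interior K, x + y ≠ v + s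

/-- the density of the double lattice packing -/
noncomputable def D2 (K : Set V) (b : Fin 3 → V) : ℝ≥0∞ := 2 * (volume K / ENNReal.ofReal |dt b|)

theorem P2.packs {K : Set V} {v : V} {b : Fin 3 → V} (h : P2 K v b) : Packs K b := by
  rw [packs_iff]
  refine ⟨h.1, fun u hu hu0 => ?_⟩
  rintro ⟨z, hz, hzu⟩
  exact h.2.1 u hu hu0 z hz _ hzu (by abel)

theorem interior_mem (K : Set V) (p : Bool × V) : interior (mem K p) = mem (interior K) p := by
  obtain ⟨s, c⟩ := p
  cases s
  · rw [mem_false, mem_false]
    exact pack_interior_tr K c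
  · have h1 : ∀ S : Set V, mem S (true, c) = (Homeomorph.subLeft c) '' S := by
      intro S
      unfold mem
      apply Set.image_congr
      intro x _
      simp only [if_true, Homeomorph.subLeft_apply]
      abel
    rw [h1, h1, Homeomorph.image_interior]

theorem p2_iff (K : Set V) (v : V) (b : Fin 3 → V) :
    (LinearIndependent ℝ b ∧ IsPack K (famLs v b)) ↔ P2 K v b := by
  unfold P2
  rw [dt_ne_zero_iff]
  refine and_congr_right fun _ => ⟨fun h => ⟨?_, ?_⟩, ?_⟩
  · intro s hs hs0 x hx y hy hxy
    have h1 := h (false, 0) (Or.inl ⟨rfl, pack_zero_mem b⟩) (false, s) (Or.inl ⟨rfl, hs⟩)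
      (fun e => hs0 (congrArg Prod.snd e).symm)
    rw [interior_mem, interior_mem, Set.disjoint_left] at h1
    refine h1 (a := x) ⟨x, hx, by simp⟩ ⟨y, hy, ?_⟩
    simp only [Bool.false_eq_true, if_false]
    rw [← hxy]; abel
  · intro s hs x hx y hy hxy
    have h1 := h (false, 0) (Or.inl ⟨rfl, pack_zero_mem b⟩) (true, v + s) (Or.inr ⟨rfl, s, hs, rfl⟩)
      (fun e => by have := congrArg Prod.fst e; simp at this)
    rw [interior_mem, interior_mem, Set.disjoint_left] at h1
    refine h1 (a := x) ⟨x, hx, by simp⟩ ⟨y, hy, ?_⟩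
    simp only [if_true]
    rw [← hxy]; abel
  · rintro ⟨h1, h2⟩
    have key1 : ∀ x ∈ interior K, ∀ y ∈ interior K, ∀ s ∈ lat b, x - y = s → s = 0 := by
      intro x hx y hy s hs hxy
      by_contra hne
      exact h1 s hs hne x hx y hy hxy
    have key2 : ∀ x ∈ interior K, ∀ y ∈ interior K, ∀ s ∈ lat b, x + y = v + s → False :=
      fun x hx y hy s hs hxy => h2 s hs x hx y hy hxy
    rintro ⟨s, c⟩ hp ⟨s', c'⟩ hq hpq
    rw [interior_mem, interior_mem, Set.disjoint_left]
    rintro X ⟨x, hx, hxX⟩ ⟨y, hy, hyX⟩
    rcases hp with ⟨hs, hc⟩ | ⟨hs, u, hu, hc⟩ <;> rcases hq with ⟨hs', hc'⟩ | ⟨hs', u', hu', hc'⟩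
    · have hs : s = false := hs
      have hs' : s' = false := hs'
      subst hs hs'
      have hxX' : x + c = X := by simpa using hxX
      have hyX' : y + c' = X := by simpa using hyX
      have h := key1 x hx y hy (c' - c) (pack_sub_mem hc' hc) (by
        rw [← hyX'] at hxX'
        have : x = y + c' - c := by rw [← hxX']; abel
        rw [this]; abel)
      apply hpq
      rw [sub_eq_zero.1 h]
    · have hs : s = false := hs
      have hs' : s' = true := hs'
      subst hs hs'
      have hc' : c' = v + u' := hc'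
      have hxX' : x + c = X := by simpa using hxX
      have hyX' : -y + c' = X := by simpa using hyX
      refine key2 x hx y hy (u' - c) (pack_sub_mem hu' hc) ?_
      have : x = -y + c' - c := by rw [hyX', ← hxX']; abel
      rw [this, hc']; abel
    · have hs : s = true := hs
      have hs' : s' = false := hs'
      subst hs hs'
      have hc : c = v + u := hc
      have hxX' : -x + c = X := by simpa using hxX
      have hyX' : y + c' = X := by simpa using hyX
      refine key2 x hx y hy (u - c') (pack_sub_mem hu hc') ?_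
      have : y = -x + c - c' := by rw [hxX', ← hyX']; abel
      rw [this, hc]; abel
    · have hs : s = true := hs
      have hs' : s' = true := hs'
      subst hs hs'
      have hc : c = v + u := hc
      have hc' : c' = v + u' := hc'
      have hxX' : -x + c = X := by simpa using hxX
      have hyX' : -y + c' = X := by simpa using hyX
      have h := key1 x hx y hy (u - u') (pack_sub_mem hu hu') (by
        rw [← hyX'] at hxX'
        have : x = c - (-y + c') := by rw [← hxX']; abel
        rw [this, hc, hc']; abel)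
      apply hpq
      rw [hc, hc', sub_eq_zero.1 h]

/-- the reflected body -/
def rf (K : Set V) (v : V) : Set V := (fun x => v - x) '' K

theorem mem_true (K : Set V) (v u : V) : mem K (true, v + u) = tr (rf K v) u := by
  unfold mem tr rf
  rw [← Set.image_comp]
  apply Set.image_congr
  intro x _
  simp only [Function.comp]
  simp only [if_true]
  abel

theorem vol_rf {K : Set V} (v : V) : volume (rf K v) = volume K := by
  have h1 : rf K v = (fun x => v + x) '' (-K) := by
    unfold rf
    rw [← Set.image_neg_eq_neg, ← Set.image_comp]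
    apply Set.image_congr
    intro x _
    simp only [Function.comp, sub_eq_add_neg]
  rw [h1, Set.image_add_left, measure_preimage_add, Measure.measure_neg]

theorem rf_compact {K : Set V} (hK : IsCompact K) (v : V) : IsCompact (rf K v) :=
  hK.image (by fun_prop)

theorem limsup_add_le' (f g : ℝ → ℝ≥0∞) :
    limsup (fun r => f r + g r) atTop ≤ limsup f atTop + limsup g atTop := by
  by_cases hf : limsup f atTop = ⊤
  · rw [hf]; simp
  by_cases hg : limsup g atTop = ⊤
  · rw [hg]; simp
  refine ENNReal.le_of_forall_pos_le_add fun ε hε _ => ?_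
  have hε2 : (0 : ℝ≥0∞) < (ε : ℝ≥0∞) / 2 := ENNReal.div_pos (by exact_mod_cast hε.ne') (by simp)
  have h1 : ∀ᶠ r in atTop, f r < limsup f atTop + (ε : ℝ≥0∞) / 2 :=
    eventually_lt_of_limsup_lt (ENNReal.lt_add_right hf hε2.ne')
  have h2 : ∀ᶠ r in atTop, g r < limsup g atTop + (ε : ℝ≥0∞) / 2 :=
    eventually_lt_of_limsup_lt (ENNReal.lt_add_right hg hε2.ne')
  refine limsup_le_of_le (by isBoundedDefault) ?_
  filter_upwards [h1, h2] with r a1 a2
  calc f r + g r ≤ (limsup f atTop + (ε : ℝ≥0∞) / 2) + (limsup g atTop + (ε : ℝ≥0∞) / 2) := add_le_add a1.le a2.le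
    _ = limsup f atTop + limsup g atTop + ((ε : ℝ≥0∞) / 2 + (ε : ℝ≥0∞) / 2) := by ring
    _ = _ := by rw [ENNReal.add_halves]

theorem den_eq2 {K : Set V} (hK : Body K) {v : V} {b : Fin 3 → V} (h : P2 K v b) :
    den K (famLs v b) = D2 K b := by
  have hli : LinearIndependent ℝ b := (dt_ne_zero_iff b).1 h.1
  let f : lat b ⊕ lat b → famLs v b := fun s =>
    match s with
    | Sum.inl u => ⟨(false, u.1), Or.inl ⟨rfl, u.2⟩⟩
    | Sum.inr u => ⟨(true, v + u.1), Or.inr ⟨rfl, u.1, u.2, rfl⟩⟩
  have hinj : Function.Injective f := by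
    intro s t h
    rcases s with u | u <;> rcases t with w | w
    · have h' : ((false, u.1) : Bool × V) = (false, w.1) := congrArg Subtype.val h
      rw [Sum.inl.injEq]
      exact Subtype.ext (congrArg Prod.snd h')
    · have h' : ((false, u.1) : Bool × V) = (true, v + w.1) := congrArg Subtype.val h
      exact absurd (congrArg Prod.fst h') (by simp)
    · have h' : ((true, v + u.1) : Bool × V) = (false, w.1) := congrArg Subtype.val h
      exact absurd (congrArg Prod.fst h') (by simp)
    · have h' : ((true, v + u.1) : Bool × V) = (true, v + w.1) := congrArg Subtype.val h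
      rw [Sum.inr.injEq]
      exact Subtype.ext (add_left_cancel (congrArg Prod.snd h'))
  have hsurj : Function.Surjective f := by
    rintro ⟨⟨s, c⟩, hp⟩
    rcases hp with ⟨hs, hc⟩ | ⟨hs, u, hu, hc⟩
    · exact ⟨Sum.inl ⟨c, hc⟩, Subtype.ext (Prod.ext hs.symm rfl)⟩
    · exact ⟨Sum.inr ⟨u, hu⟩, Subtype.ext (Prod.ext hs.symm hc.symm)⟩
  have hsum : ∀ r : ℝ, ∑' p : famLs v b, volume (mem K p.1 ∩ Bl r) =
      (∑' u : lat b, volume (tr K u.1 ∩ Bl r)) + ∑' u : lat b, volume (tr (rf K v) u.1 ∩ Bl r) := by
    intro r
    rw [← (Equiv.ofBijective f ⟨hinj, hsurj⟩).tsum_eq (fun p : famLs v b => volume (mem K p.1 ∩ Bl r))]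
    rw [Summable.tsum_sum (f := fun s => volume (mem K ((Equiv.ofBijective f ⟨hinj, hsurj⟩) s).1 ∩ Bl r))
      ENNReal.summable ENNReal.summable]
    refine congrArg₂ (· + ·) (tsum_congr fun u => ?_) (tsum_congr fun u => ?_)
    · show volume (mem K (false, u.1) ∩ Bl r) = _
      rw [mem_false]
    · show volume (mem K (true, v + u.1) ∩ Bl r) = _
      rw [mem_true]
  have hden : den K (famLs v b) = limsup (fun r : ℝ =>
      (∑' u : lat b, volume (tr K u.1 ∩ Bl r)) / volume (Bl r) +
        (∑' u : lat b, volume (tr (rf K v) u.1 ∩ Bl r)) / volume (Bl r)) atTop := by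
    unfold den
    congr 1
    funext r
    rw [hsum, ENNReal.add_div]
  apply le_antisymm
  · rw [hden]
    refine (limsup_add_le' _ _).trans ?_
    have e1 : limsup (fun r : ℝ => (∑' u : lat b, volume (tr K u.1 ∩ Bl r)) / volume (Bl r)) atTop = dens K b := rfl
    have e2 : limsup (fun r : ℝ => (∑' u : lat b, volume (tr (rf K v) u.1 ∩ Bl r)) / volume (Bl r)) atTop =
      dens (rf K v) b := rfl
    rw [e1, e2, dens_eq b hli K hK.1, dens_eq b hli _ (rf_compact hK.1 v), vol_rf]
    unfold D2
    rw [two_mul]
  · have h1 : dens (K ∪ rf K v) b ≤ den K (famLs v b) := by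
      rw [hden]
      unfold dens
      refine limsup_le_limsup (Eventually.of_forall fun r => ?_)
      simp only
      rw [← ENNReal.add_div]
      apply ENNReal.div_le_div_right
      calc ∑' u : lat b, volume (tr (K ∪ rf K v) u.1 ∩ Bl r)
          ≤ ∑' u : lat b, (volume (tr K u.1 ∩ Bl r) + volume (tr (rf K v) u.1 ∩ Bl r)) := by
            apply ENNReal.tsum_le_tsum
            intro u
            have : tr (K ∪ rf K v) u.1 ∩ Bl r = (tr K u.1 ∩ Bl r) ∪ (tr (rf K v) u.1 ∩ Bl r) := by
              unfold tr
              rw [Set.image_union, Set.union_inter_distrib_right]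
            rw [this]
            exact measure_union_le _ _
        _ = _ := ENNReal.tsum_add
    refine le_trans ?_ h1
    rw [dens_eq b hli _ (hK.1.union (rf_compact hK.1 v))]
    unfold D2
    rw [← mul_div_assoc]
    apply ENNReal.div_le_div_right
    have hvi : volume (interior K) = volume K := by
      have hfr := hK.2.1.addHaar_frontier (volume : Measure V)
      refine le_antisymm (measure_mono interior_subset) ?_
      calc volume K ≤ volume (interior K ∪ frontier K) := measure_mono (by
            rw [← closure_eq_interior_union_frontier]; exact subset_closure)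
        _ ≤ volume (interior K) + volume (frontier K) := measure_union_le _ _
        _ = volume (interior K) := by rw [hfr, add_zero]
    have hdis : Disjoint (interior K) (rf (interior K) v) := by
      rw [Set.disjoint_left]
      rintro z hz ⟨y, hy, hyz⟩
      refine h.2.2 0 (pack_zero_mem b) z hz y hy ?_
      have hyz : v - y = z := hyz
      rw [← hyz]; abel
    have hopen : IsOpen (rf (interior K) v) := by
      have : rf (interior K) v = (Homeomorph.subLeft v) '' (interior K) := rfl
      rw [this]
      exact (Homeomorph.isOpenMap _) _ isOpen_interior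
    calc 2 * volume K = volume (interior K) + volume (rf (interior K) v) := by
          rw [vol_rf, hvi, two_mul]
      _ = volume (interior K ∪ rf (interior K) v) := (measure_union hdis hopen.measurableSet).symm
      _ ≤ volume (K ∪ rf K v) := measure_mono (union_subset_union interior_subset (image_mono interior_subset))

theorem dLs_eq {K : Set V} (hK : Body K) : dLs K = ⨆ (v : V) (b : Fin 3 → V) (_ : P2 K v b), D2 K b := by
  unfold dLs
  refine iSup_congr fun v => iSup_congr fun b => ?_
  exact iSup_congr_Prop (p2_iff K v b) fun h => den_eq2 hK h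

theorem D2_le {K : Set V} (hK : Body K) {v : V} {b : Fin 3 → V} (h : P2 K v b) : D2 K b ≤ 2 := by
  unfold D2
  have h1 := dens_le_one hK.2.1 h.packs
  rw [dens_eq b h.packs.1 K hK.1] at h1
  calc 2 * (volume K / ENNReal.ofReal |dt b|) ≤ 2 * 1 := mul_le_mul_right h1 _
    _ = 2 := mul_one _

theorem le_dLs {K : Set V} (hK : Body K) {v : V} {b : Fin 3 → V} (h : P2 K v b) : D2 K b ≤ dLs K := by
  rw [dLs_eq hK]
  exact le_iSup_of_le v (le_iSup₂_of_le b h le_rfl)

theorem dLs_fin {K : Set V} (hK : Body K) : dLs K ≠ ⊤ := by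
  rw [dLs_eq hK]
  refine ne_top_of_le_ne_top (b := 2) (by simp) ?_
  exact iSup_le fun v => iSup₂_le fun b h => D2_le hK h

end Run7.h179.EX
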