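import Pool.Agent.Run7.h179.EX.Fin

/-! Finiteness of the extreme points. -/

set_option autoImplicit false

namespace Run7.h179.EX

open Filter Topology Set Metric
open Pool.Agent.H349R2.Tet Pool.Agent.TH219.DL
open Run7.h361 (iv)
open Matrix

theorem lat_fin {b : Fin 3 → V} (hb : dt b ≠ 0) (R : ℝ) : {u | u ∈ lat b ∧ ‖u‖ ≤ R}.Finite := by
  have hcont : Continuous (fun u : V => (dt b)⁻¹ • cf b u) := by
    have h1 : Continuous (fun u : V => cf b u) := cf_cont.comp (by fun_prop : Continuous fun u : V => ((b, u) : (Fin 3 → V) × V))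
    exact Continuous.const_smul h1 ((dt b)⁻¹)
  obtain ⟨M, hM⟩ := ((isCompact_closedBall (0 : V) R).image hcont).isBounded.subset_closedBall 0
  refine ((Set.finite_Icc (fun _ : Fin 3 => -⌈M⌉) (fun _ => ⌈M⌉)).image
    (fun z : Fin 3 → ℤ => ∑ i, (z i : ℝ) • b i)).subset ?_
  rintro u ⟨⟨z, hz⟩, hu⟩
  have h1 : iv z = (dt b)⁻¹ • cf b u := by
    rw [hz, ← mulVec_eq, cf_mul, smul_smul, inv_mul_cancel₀ hb, one_smul]
  have h2 : ‖iv z‖ ≤ M := by
    have := hM ⟨u, by rwa [mem_closedBall, dist_zero_right], rfl⟩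
    rw [mem_closedBall, dist_zero_right] at this
    rwa [h1]
  have h3 : ∀ i, |(z i : ℝ)| ≤ M := fun i => (norm_le_pi_norm (iv z) i).trans h2
  refine ⟨z, ⟨fun i => ?_, fun i => ?_⟩, hz.symm⟩
  · have := (abs_le.1 (h3 i)).1
    have h4 : (-(⌈M⌉ : ℤ) : ℝ) ≤ z i := by linarith [Int.le_ceil M]
    exact_mod_cast h4
  · have := (abs_le.1 (h3 i)).2
    have h4 : (z i : ℝ) ≤ (⌈M⌉ : ℤ) := by linarith [Int.le_ceil M]
    exact_mod_cast h4

theorem three_ext {K : Set V} {x y z : V} (hx : x ∈ K) (hy : y ∈ K.extremePoints ℝ) (hz : z ∈ K)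
    (hxy : x ≠ y) (hyz : z ≠ y) (h : Wbtw ℝ x y z) : False := by
  have h1 := mem_openSegment_of_ne_left_right hxy hyz (mem_segment_iff_wbtw.2 h)
  exact hxy ((mem_extremePoints.1 hy).2 _ hx _ hz h1).1

theorem coll_fin {K S : Set V} (hS : Collinear ℝ S) : (K.extremePoints ℝ ∩ S).Finite := by
  by_contra hinf
  obtain ⟨t, hts, htc⟩ := (show (K.extremePoints ℝ ∩ S).Infinite from hinf).exists_subset_card_eq 3
  obtain ⟨x, y, z, hxy, hxz, hyz, rfl⟩ := Finset.card_eq_three.1 htc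
  have hx := hts (show x ∈ (({x, y, z} : Finset V) : Set V) by simp)
  have hy := hts (show y ∈ (({x, y, z} : Finset V) : Set V) by simp)
  have hz := hts (show z ∈ (({x, y, z} : Finset V) : Set V) by simp)
  have hc : Collinear ℝ ({x, y, z} : Set V) := hS.subset (by
    rintro w (rfl | rfl | rfl)
    · exact hx.2
    · exact hy.2
    · exact hz.2)
  rcases hc.wbtw_or_wbtw_or_wbtw with h | h | h
  · exact three_ext hx.1.1 hy.1 hz.1.1 hxy hyz.symm h
  · exact three_ext hy.1.1 hz.1 hx.1.1 hyz hxz h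
  · exact three_ext hz.1.1 hx.1 hy.1.1 hxz.symm hxy.symm h

/-- the extreme points on contact sets of dimension at most one, for one lattice -/
theorem ext_fin {K : Set V} (hK : Body K) {b : Fin 3 → V} (hb : dt b ≠ 0) :
    {x | x ∈ K.extremePoints ℝ ∧ ∃ u ∈ lat b, u ≠ 0 ∧ x ∈ (fun y => y + u) '' K ∧
      Collinear ℝ (K ∩ (fun y => y + u) '' K)}.Finite := by
  obtain ⟨R, hR⟩ := hK.1.isBounded.subset_closedBall (0 : V)
  refine ((lat_fin hb (R + R)).biUnion (t := fun u => {x | x ∈ K.extremePoints ℝ ∧ x ∈ (fun y => y + u) '' K ∧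
      Collinear ℝ (K ∩ (fun y => y + u) '' K)}) fun u _ => ?_).subset ?_
  · by_cases h : Collinear ℝ (K ∩ (fun y => y + u) '' K)
    · refine (coll_fin (K := K) h).subset ?_
      rintro x ⟨h1, h2, -⟩
      exact ⟨h1, h1.1, h2⟩
    · refine Set.finite_empty.subset ?_
      rintro x ⟨-, -, h3⟩
      exact h h3
  · rintro x ⟨hx, u, hu, -, ⟨y, hy, hyx⟩, hc⟩
    refine Set.mem_biUnion (x := u) ⟨hu, ?_⟩ ⟨hx, ⟨y, hy, hyx⟩, hc⟩
    have h1 := hR hx.1
    have h2 := hR hy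
    rw [mem_closedBall, dist_zero_right] at h1 h2
    have : u = x - y := by
      rw [← hyx]
      exact (add_sub_cancel_left y u).symm
    rw [this]
    exact (norm_sub_le _ _).trans (add_le_add h1 h2)

theorem coll_of {K : Set V} {u x : V} (hx : x ∈ K) (hxu : x - u ∈ K)
    (h : ∀ p q : V, p ∈ K → p - u ∈ K → q ∈ K → q - u ∈ K →
        ∃ s t : ℝ, (s ≠ 0 ∨ t ≠ 0) ∧ s • (p - x) + t • (q - x) = 0) :
    Collinear ℝ (K ∩ (fun y => y + u) '' K) := by
  have hmem : x ∈ K ∩ (fun y => y + u) '' K := ⟨hx, x - u, hxu, sub_add_cancel x u⟩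
  have hsub : ∀ p ∈ K ∩ (fun y => y + u) '' K, p ∈ K ∧ p - u ∈ K := by
    rintro p ⟨h1, y, hy, rfl⟩
    exact ⟨h1, by simpa using hy⟩
  rw [collinear_iff_of_mem hmem]
  by_cases hall : ∀ p ∈ K ∩ (fun y => y + u) '' K, p = x
  · exact ⟨0, fun p hp => ⟨0, by rw [hall p hp]; simp⟩⟩
  push Not at hall
  obtain ⟨p, hp, hpx⟩ := hall
  refine ⟨p - x, fun q hq => ?_⟩
  obtain ⟨s, t, hst, he⟩ := h p q (hsub p hp).1 (hsub p hp).2 (hsub q hq).1 (hsub q hq).2
  have ht : t ≠ 0 := by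
    rintro rfl
    rw [zero_smul, add_zero] at he
    rcases smul_eq_zero.1 he with h | h
    · rcases hst with h' | h'
      · exact h' h
      · exact h' rfl
    · exact hpx (sub_eq_zero.1 h)
  refine ⟨-(s / t), ?_⟩
  have h1 : q - x = -(s / t) • (p - x) := by
    have h2 : t • (q - x) = -(s • (p - x)) := by rw [eq_neg_iff_add_eq_zero, add_comm]; exact he
    have h3 : q - x = t⁻¹ • (t • (q - x)) := by rw [smul_smul, inv_mul_cancel₀ ht, one_smul]
    rw [h3, h2, smul_neg, smul_smul, neg_smul]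
    congr 2
    ring
  rw [vadd_eq_add, ← h1, sub_add_cancel]

end Run7.h179.EX
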