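import Pool.Agent.Run7.h179.EX.Seq

/-! Every extreme point of a minimiser is touched with a contact set of dimension at most one: the limit. -/

set_option autoImplicit false

namespace Run7.h179.EX

open MeasureTheory Filter Topology Set Metric
open scoped ENNReal
open Pool.Agent.H349R2.Tet Pool.Agent.TH219.DL
open Run7.h361 (iv im red_norm mul_im_col im_det im_mulVec)
open Matrix

theorem limS {K : Set V} (hK : Body K) {x : V} (hx : x ∈ K.extremePoints ℝ)
    (hmin : ∀ r₀ : ℝ, 0 < r₀ → ∃ r : ℝ, 0 < r ∧ r < r₀ ∧ dL K ≤ dL (trunc K x r)) :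
    ∃ b : Fin 3 → V, Packs K b ∧ dens K b = dL K ∧ ∃ u ∈ lat b, u ≠ 0 ∧ x - u ∈ K ∧
      ∀ p q : V, p ∈ K → p - u ∈ K → q ∈ K → q - u ∈ K →
        ∃ s t : ℝ, (s ≠ 0 ∨ t ≠ 0) ∧ s • (p - x) + t • (q - x) = 0 := by
  obtain ⟨c, hc, hcx⟩ := body_ne hK x
  obtain ⟨ρ₀, hρ₀, hball₀⟩ := Metric.isOpen_iff.1 isOpen_interior c hc
  have hd : 0 < dist c x := dist_pos.2 hcx
  obtain ⟨ρ, hρd⟩ : ∃ ρ : ℝ, ρ = min ρ₀ (dist c x / 2) := ⟨_, rfl⟩
  have hρ : 0 < ρ := by rw [hρd]; positivity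
  have hball : ball c ρ ⊆ interior K := (ball_subset_ball (by rw [hρd]; exact min_le_left _ _)).trans hball₀
  have hρc : 2 * ρ ≤ dist c x := by
    have : ρ ≤ dist c x / 2 := by rw [hρd]; exact min_le_right _ _
    linarith
  have hxK : x ∈ K := hx.1
  have hxi := ext_not_int hx
  obtain ⟨hv0, hvt⟩ := body_vol hK
  have hdpos : dL K ≠ 0 := (dL_pos hK).ne'
  have hdt' : dL K ≠ ⊤ := ((dL_le_one hK).trans_lt ENNReal.one_lt_top).ne
  obtain ⟨D, hD⟩ : ∃ D : ℝ, D = (volume K / dL K).toReal + 1 := ⟨_, rfl⟩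
  have hDpos : 0 < D := by rw [hD]; positivity
  have hDb : ∀ b : Fin 3 → V, dt b ≠ 0 → dL K < volume K / ENNReal.ofReal |dt b| → |dt b| ≤ D := by
    intro b hb0 hmb
    have hpos : 0 < |dt b| := abs_pos.2 hb0
    have hne : ENNReal.ofReal |dt b| ≠ 0 := by rw [ne_eq, ENNReal.ofReal_eq_zero, not_le]; exact hpos
    have h1 : ENNReal.ofReal |dt b| ≤ volume K / dL K := by
      rw [ENNReal.le_div_iff_mul_le (Or.inl hdpos) (Or.inl hdt'), mul_comm]
      rw [ENNReal.lt_div_iff_mul_lt (Or.inl hne) (Or.inl ENNReal.ofReal_ne_top)] at hmb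
      exact hmb.le
    have hfin : volume K / dL K ≠ ⊤ := ENNReal.div_ne_top hvt hdpos
    have h2 : |dt b| ≤ (volume K / dL K).toReal := by
      rw [← ENNReal.ofReal_le_iff_le_toReal hfin]
      exact h1
    rw [hD]
    linarith
  obtain ⟨R, hR, hred⟩ := bdd_basis hρ hDpos
  have hstep : ∀ k : ℕ, ∃ (r : ℝ) (b : Fin 3 → V), 0 < r ∧ r < 1 / ((k : ℝ) + 1) ∧ K \ ball x r ⊆ trunc K x r ∧
      Packs (trunc K x r) b ∧ dL K < volume K / ENNReal.ofReal |dt b| ∧ (∀ w ∈ lat b, w ≠ 0 → ρ ≤ ‖w‖) ∧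
      (volume (closedBall c (ρ / 2))).toReal ≤ |dt b| ∧ (∀ i, ‖b i‖ ≤ R) ∧
      ∃ w ∈ lat b, w ≠ 0 ∧ (∃ z ∈ interior K, z - w ∈ interior K) ∧
        ∀ z ∈ interior K, z - w ∈ interior K → dist z x ≤ r := by
    intro k
    obtain ⟨r, hr, hrk, -, hsub, b, hb, hbd, hbn, hbv, w, hw, hw0, hz, hzz⟩ :=
      mainS hK hx hmin hρ hball hρc (r₀ := 1 / ((k : ℝ) + 1)) (by positivity)
    have hb0 := ((packs_iff _ b).1 hb).1
    obtain ⟨b', h1, h2, h3⟩ := hred b hb0 (hDb b hb0 hbd) hbn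
    refine ⟨r, b', hr, hrk, hsub, ?_, by rwa [h2], by rwa [h1], by rwa [h2], h3, w, by rwa [h1], hw0, hz, hzz⟩
    rw [packs_iff] at hb ⊢
    refine ⟨fun h => hb.1 ?_, fun w hw => hb.2 w (h1 ▸ hw)⟩
    rw [h, abs_zero] at h2
    exact abs_eq_zero.1 h2.symm
  choose r b hr hrk hsub hbp hbd hbn hbv hbR w hw hw0 hz hzz using hstep
  choose z hzK hzw using hz
  obtain ⟨R₁, hR₁⟩ := hK.1.isBounded.subset_closedBall (0 : V)
  have hwb : ∀ k, ‖w k‖ ≤ R₁ + R₁ := by
    intro k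
    have h1 := hR₁ (interior_subset (hzK k))
    have h2 := hR₁ (interior_subset (hzw k))
    rw [mem_closedBall, dist_zero_right] at h1 h2
    have : w k = z k - (z k - w k) := by abel
    rw [this]
    exact (norm_sub_le _ _).trans (add_le_add h1 h2)
  have hrlim : Tendsto r atTop (𝓝 0) :=
    squeeze_zero (fun k => (hr k).le) (fun k => (hrk k).le) tendsto_one_div_add_atTop_nhds_zero_nat
  have hzlim : Tendsto z atTop (𝓝 x) := by
    rw [tendsto_iff_dist_tendsto_zero]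
    exact squeeze_zero (fun k => dist_nonneg) (fun k => hzz k _ (hzK k) (hzw k)) hrlim
  have hcomp : IsCompact ((closedBall (0 : Fin 3 → V) R) ×ˢ (closedBall (0 : V) (R₁ + R₁))) :=
    (isCompact_closedBall _ _).prod (isCompact_closedBall _ _)
  have hin : ∀ k, ((b k, w k) : (Fin 3 → V) × V) ∈
      ((closedBall (0 : Fin 3 → V) R) ×ˢ (closedBall (0 : V) (R₁ + R₁))) := by
    intro k
    refine ⟨?_, ?_⟩
    · show b k ∈ closedBall (0 : Fin 3 → V) R
      rw [mem_closedBall, dist_zero_right, pi_norm_le_iff_of_nonneg hR.le]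
      exact hbR k
    · show w k ∈ closedBall (0 : V) (R₁ + R₁)
      rw [mem_closedBall, dist_zero_right]
      exact hwb k
  obtain ⟨⟨B, U⟩, -, φ, hφ, hlim⟩ := hcomp.tendsto_subseq hin
  have hφt := hφ.tendsto_atTop
  have hlb : Tendsto (fun k => b (φ k)) atTop (𝓝 B) := (continuous_fst.tendsto _).comp hlim
  have hlu : Tendsto (fun k => w (φ k)) atTop (𝓝 U) := (continuous_snd.tendsto _).comp hlim
  have hlz : Tendsto (fun k => z (φ k)) atTop (𝓝 x) := hzlim.comp hφt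
  have hlr : Tendsto (fun k => r (φ k)) atTop (𝓝 0) := hrlim.comp hφt
  have hldt : Tendsto (fun k => dt (b (φ k))) atTop (𝓝 (dt B)) := (cont_dt.tendsto _).comp hlb
  have hvb : 0 < (volume (closedBall c (ρ / 2))).toReal := by
    refine ENNReal.toReal_pos ?_ (isCompact_closedBall _ _).measure_lt_top.ne
    exact (measure_closedBall_pos volume c (by positivity)).ne'
  have hdtB : (volume (closedBall c (ρ / 2))).toReal ≤ |dt B| :=
    ge_of_tendsto' hldt.abs (fun k => hbv _)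
  have hdtB0 : dt B ≠ 0 := by
    intro h
    rw [h, abs_zero] at hdtB
    linarith
  have hBp : Packs K B := by
    rw [packs_iff]
    refine ⟨hdtB0, ?_⟩
    rintro v ⟨n, hn⟩ hv0 ⟨y, hy, hyv⟩
    have hw' : Tendsto (fun k => ∑ i, (n i : ℝ) • b (φ k) i) atTop (𝓝 v) := by
      rw [hn]
      refine tendsto_finsetSum _ fun i _ => ?_
      exact (((continuous_apply i).tendsto _).comp hlb).const_smul _
    have hyw := hw'.const_sub y
    have e1 : ∀ᶠ k in atTop, y - ∑ i, (n i : ℝ) • b (φ k) i ∈ interior K :=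
      hyw.eventually_mem (isOpen_interior.mem_nhds hyv)
    have e2 : ∀ᶠ k in atTop, ∑ i, (n i : ℝ) • b (φ k) i ≠ 0 := hw'.eventually_ne hv0
    have hyx : 0 < dist y x := dist_pos.2 (fun h => hxi (h ▸ hy))
    have hyvx : 0 < dist (y - v) x := dist_pos.2 (fun h => hxi (h ▸ hyv))
    have e3 : ∀ᶠ k in atTop, r (φ k) < dist y x := hlr.eventually_lt_const hyx
    have e4 : ∀ᶠ k in atTop, r (φ k) < dist (y - ∑ i, (n i : ℝ) • b (φ k) i) x :=
      hlr.eventually_lt (hyw.dist tendsto_const_nhds) hyvx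
    obtain ⟨k, ⟨h1, h2⟩, h3, h4⟩ := ((e1.and e2).and (e3.and e4)).exists
    have hopen : IsOpen (interior K ∩ (closedBall x (r (φ k)))ᶜ) :=
      isOpen_interior.inter isClosed_closedBall.isOpen_compl
    have hint : interior K ∩ (closedBall x (r (φ k)))ᶜ ⊆ interior (trunc K x (r (φ k))) := by
      refine interior_maximal ?_ hopen
      rintro z ⟨h1, h2⟩
      exact hsub _ ⟨interior_subset h1, fun h => h2 (ball_subset_closedBall h)⟩
    exact ((packs_iff _ _).1 (hbp (φ k))).2 _ ⟨n, rfl⟩ h2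
      ⟨y, hint ⟨hy, fun h => absurd (mem_closedBall.1 h) (not_le.2 h3)⟩,
        hint ⟨h1, fun h => absurd (mem_closedBall.1 h) (not_le.2 h4)⟩⟩
  have hdB : dens K B = dL K := by
    apply le_antisymm
    · rw [dL_eq]
      exact le_iSup₂_of_le B hBp le_rfl
    · have h1 : Tendsto (fun k => volume K / ENNReal.ofReal |dt (b (φ k))|) atTop (𝓝 (dens K B)) := by
        rw [dens_eq B hBp.1 K hK.1]
        exact ENNReal.Tendsto.const_div (ENNReal.tendsto_ofReal hldt.abs) (Or.inr hvt)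
      exact ge_of_tendsto' h1 (fun k => (hbd (φ k)).le)
  have hUlat : U ∈ lat B :=
    lim_lat hlb hlu hldt (fun k => ((packs_iff _ _).1 (hbp (φ k))).1) hdtB0 (fun k => hw (φ k))
  have hU0 : U ≠ 0 := by
    have h1 : ρ ≤ ‖U‖ := ge_of_tendsto' hlu.norm (fun k => hbn _ _ (hw _) (hw0 _))
    intro h
    rw [h, norm_zero] at h1
    linarith
  have hxU : x - U ∈ K :=
    hK.1.isClosed.mem_of_tendsto (hlz.sub hlu) (Eventually.of_forall fun k => interior_subset (hzw _))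
  refine ⟨B, hBp, hdB, U, hUlat, hU0, hxU, ?_⟩
  intro p q hp hpU hq hqU
  by_contra hcon
  push Not at hcon
  refine coll_of_lim hK.2.1 hK.2.2 hlu hlr (fun y h1 h2 => ((packs_iff K B).1 hBp).2 U hUlat hU0 ⟨y, h1, h2⟩)
    (fun k => ⟨z (φ k), hzK _, hzw _⟩) (fun k => hzz (φ k)) hxK hxU hp hpU hq hqU ?_
  intro s t hst
  by_contra h
  refine hcon s t ?_ hst
  by_contra h'
  push Not at h'
  exact h h'

end Run7.h179.EX
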