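import Pool.Agent.Run7.h179.EX.SeqD

/-! Double lattice packings: the limit. -/

set_option autoImplicit false

namespace Run7.h179.EX

open MeasureTheory Filter Topology Set Metric
open scoped ENNReal
open Pool.Agent.H349R2.Tet Pool.Agent.TH219.DL
open Run7.h361 (iv im red_norm mul_im_col im_det im_mulVec)
open Matrix

theorem P2.shift' {K : Set V} {v : V} {b : Fin 3 → V} (h : P2 K v b) {s₀ : V} (hs₀ : s₀ ∈ lat b) :
    P2 K (v + s₀) b := h.shift hs₀

/-- limits of packings of truncated bodies -/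
theorem limT {K : Set V} (hK : Body K) {x : V} (hxi : x ∉ interior K) {r : ℕ → ℝ} (hrlim : Tendsto r atTop (𝓝 0))
    {R R₁ R₂ v₀ : ℝ} (hR : 0 ≤ R) (hv₀ : 0 < v₀) {b : ℕ → Fin 3 → V} {v u : ℕ → V}
    (hsub : ∀ k, K \ ball x (r k) ⊆ trunc K x (r k)) (hP : ∀ k, P2 (trunc K x (r k)) (v k) (b k))
    (hm : ∀ k, dLs K < D2 K (b k)) (hb : ∀ k i, ‖b k i‖ ≤ R) (hv : ∀ k, ‖v k‖ ≤ R₁) (hun : ∀ k, ‖u k‖ ≤ R₂)
    (hu : ∀ k, u k ∈ lat (b k)) (hdt : ∀ k, v₀ ≤ |dt (b k)|) :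
    ∃ (φ : ℕ → ℕ) (B : Fin 3 → V) (W U : V), StrictMono φ ∧
      Tendsto (fun k => v (φ k)) atTop (𝓝 W) ∧ Tendsto (fun k => u (φ k)) atTop (𝓝 U) ∧
      P2 K W B ∧ D2 K B = dLs K ∧ U ∈ lat B := by
  obtain ⟨hv0, hvt⟩ := body_vol hK
  have hcomp : IsCompact ((closedBall (0 : Fin 3 → V) R) ×ˢ ((closedBall (0 : V) R₁) ×ˢ
      (closedBall (0 : V) R₂))) :=
    (isCompact_closedBall _ _).prod ((isCompact_closedBall _ _).prod (isCompact_closedBall _ _))
  have hin : ∀ k, ((b k, (v k, u k)) : (Fin 3 → V) × (V × V)) ∈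
      ((closedBall (0 : Fin 3 → V) R) ×ˢ ((closedBall (0 : V) R₁) ×ˢ (closedBall (0 : V) R₂))) := by
    intro k
    refine ⟨?_, ?_, ?_⟩
    · rw [mem_closedBall, dist_zero_right, pi_norm_le_iff_of_nonneg hR]
      exact hb k
    · show v k ∈ closedBall (0 : V) R₁
      rw [mem_closedBall, dist_zero_right]
      exact hv k
    · show u k ∈ closedBall (0 : V) R₂
      rw [mem_closedBall, dist_zero_right]
      exact hun k
  obtain ⟨⟨B, W, U⟩, -, φ, hφ, hlim⟩ := hcomp.tendsto_subseq hin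
  have hlb : Tendsto (fun k => b (φ k)) atTop (𝓝 B) := (continuous_fst.tendsto _).comp hlim
  have hlv : Tendsto (fun k => v (φ k)) atTop (𝓝 W) :=
    ((continuous_fst.comp continuous_snd).tendsto _).comp hlim
  have hlu : Tendsto (fun k => u (φ k)) atTop (𝓝 U) :=
    ((continuous_snd.comp continuous_snd).tendsto _).comp hlim
  have hlr : Tendsto (fun k => r (φ k)) atTop (𝓝 0) := hrlim.comp hφ.tendsto_atTop
  have hldt : Tendsto (fun k => dt (b (φ k))) atTop (𝓝 (dt B)) := (cont_dt.tendsto _).comp hlb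
  have hdtB : v₀ ≤ |dt B| := ge_of_tendsto' hldt.abs (fun k => hdt _)
  have hdtB0 : dt B ≠ 0 := by
    intro h
    rw [h, abs_zero] at hdtB
    linarith
  have hint : ∀ k, interior K ∩ (closedBall x (r (φ k)))ᶜ ⊆ interior (trunc K x (r (φ k))) := by
    intro k
    refine interior_maximal ?_ (isOpen_interior.inter isClosed_closedBall.isOpen_compl)
    rintro z ⟨h1, h2⟩
    exact hsub _ ⟨interior_subset h1, fun h => h2 (ball_subset_closedBall h)⟩
  have hcomb : ∀ n : Fin 3 → ℤ, Tendsto (fun k => ∑ i, (n i : ℝ) • b (φ k) i) atTop (𝓝 (∑ i, (n i : ℝ) • B i)) := by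
    intro n
    refine tendsto_finsetSum _ fun i _ => ?_
    exact (((continuous_apply i).tendsto _).comp hlb).const_smul _
  have hev : ∀ (y : V) (f : ℕ → V), y ∈ interior K → Tendsto f atTop (𝓝 y) →
      ∀ᶠ k in atTop, f k ∈ interior (trunc K x (r (φ k))) := by
    intro y f hy hf
    have hyx : 0 < dist y x := dist_pos.2 (fun h => hxi (h ▸ hy))
    have e1 : ∀ᶠ k in atTop, f k ∈ interior K := hf.eventually_mem (isOpen_interior.mem_nhds hy)
    have e2 : ∀ᶠ k in atTop, r (φ k) < dist (f k) x := hlr.eventually_lt (hf.dist tendsto_const_nhds) hyx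
    filter_upwards [e1, e2] with k h1 h2
    exact hint k ⟨h1, fun h => absurd (mem_closedBall.1 h) (not_le.2 h2)⟩
  have hBp : P2 K W B := by
    refine ⟨hdtB0, ?_, ?_⟩
    · rintro w ⟨n, hn⟩ hw0 z hz y' hy' hzy
      have hw' := hcomb n
      rw [← hn] at hw'
      have e0 := hev z (fun _ => z) hz tendsto_const_nhds
      have hzw : Tendsto (fun k => z - ∑ i, (n i : ℝ) • b (φ k) i) atTop (𝓝 y') := by
        have : z - w = y' := by rw [← hzy]; abel
        rw [← this]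
        exact hw'.const_sub z
      have e1 := hev y' _ hy' hzw
      have e2 : ∀ᶠ k in atTop, ∑ i, (n i : ℝ) • b (φ k) i ≠ 0 := hw'.eventually_ne hw0
      obtain ⟨k, ⟨h0, h1⟩, h2⟩ := ((e0.and e1).and e2).exists
      exact (hP (φ k)).2.1 _ ⟨n, rfl⟩ h2 z h0 _ h1 (by abel)
    · rintro w ⟨n, hn⟩ z hz y' hy' hzy
      have hw' := hcomb n
      rw [← hn] at hw'
      have e0 := hev z (fun _ => z) hz tendsto_const_nhds
      have hzw : Tendsto (fun k => v (φ k) + ∑ i, (n i : ℝ) • b (φ k) i - z) atTop (𝓝 y') := by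
        have : W + w - z = y' := by rw [← hzy]; abel
        rw [← this]
        exact (hlv.add hw').sub_const z
      have e1 := hev y' _ hy' hzw
      obtain ⟨k, h0, h1⟩ := (e0.and e1).exists
      exact (hP (φ k)).2.2 _ ⟨n, rfl⟩ z h0 _ h1 (by abel)
  have hdB : D2 K B = dLs K := by
    apply le_antisymm (le_dLs hK hBp)
    have h1 : Tendsto (fun k => D2 K (b (φ k))) atTop (𝓝 (D2 K B)) := by
      unfold D2
      refine ENNReal.Tendsto.const_mul ?_ (Or.inr (by simp))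
      exact ENNReal.Tendsto.const_div (ENNReal.tendsto_ofReal hldt.abs) (Or.inr hvt)
    exact ge_of_tendsto' h1 (fun k => (hm (φ k)).le)
  exact ⟨φ, B, W, U, hφ, hlv, hlu, hBp, hdB,
    lim_lat hlb hlu hldt (fun k => (hP (φ k)).1) hdtB0 (fun k => hu (φ k))⟩

theorem limSD {K : Set V} (hK : Body K) {x : V} (hx : x ∈ K.extremePoints ℝ)
    (hmin : ∀ r₀ : ℝ, 0 < r₀ → ∃ r : ℝ, 0 < r ∧ r < r₀ ∧ dLs K ≤ dLs (trunc K x r)) :
    ∃ (v : V) (b : Fin 3 → V), P2 K v b ∧ D2 K b = dLs K ∧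
      ((∃ u ∈ lat b, u ≠ 0 ∧ x - u ∈ K ∧
        ∀ p q : V, p ∈ K → p - u ∈ K → q ∈ K → q - u ∈ K →
          ∃ s t : ℝ, (s ≠ 0 ∨ t ≠ 0) ∧ s • (p - x) + t • (q - x) = 0) ∨
       ∃ u ∈ lat b, v + u = (2 : ℝ) • x) := by
  obtain ⟨c, hc, hcx⟩ := body_ne hK x
  obtain ⟨ρ₀, hρ₀, hball₀⟩ := Metric.isOpen_iff.1 isOpen_interior c hc
  have hd : 0 < dist c x := dist_pos.2 hcx
  obtain ⟨ρ, hρd⟩ : ∃ ρ : ℝ, ρ = min ρ₀ (dist c x / 2) := ⟨_, rfl⟩
  have hρ : 0 < ρ := by rw [hρd]; positivity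
  have hball : ball c ρ ⊆ interior K := (ball_subset_ball (by rw [hρd]; exact min_le_left _ _)).trans hball₀
  have hρc : 2 * ρ ≤ dist c x := by
    have : ρ ≤ dist c x / 2 := by rw [hρd]; exact min_le_right _ _
    linarith
  have hxK : x ∈ K := hx.1
  have hxi := ext_not_int hx
  obtain ⟨hv0, hvt⟩ := body_vol hK
  have hdpos : dLs K ≠ 0 := (dLs_pos hK).ne'
  have hdt' : dLs K ≠ ⊤ := dLs_fin hK
  obtain ⟨D, hD⟩ : ∃ D : ℝ, D = (2 * volume K / dLs K).toReal + 1 := ⟨_, rfl⟩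
  have hDpos : 0 < D := by rw [hD]; positivity
  have hDb : ∀ b : Fin 3 → V, dt b ≠ 0 → dLs K < D2 K b → |dt b| ≤ D := by
    intro b hb0 hmb
    have hpos : 0 < |dt b| := abs_pos.2 hb0
    have hne : ENNReal.ofReal |dt b| ≠ 0 := by rw [ne_eq, ENNReal.ofReal_eq_zero, not_le]; exact hpos
    unfold D2 at hmb
    rw [← mul_div_assoc, ENNReal.lt_div_iff_mul_lt (Or.inl hne) (Or.inl ENNReal.ofReal_ne_top)] at hmb
    have h1 : ENNReal.ofReal |dt b| ≤ 2 * volume K / dLs K := by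
      rw [ENNReal.le_div_iff_mul_le (Or.inl hdpos) (Or.inl hdt'), mul_comm]
      exact hmb.le
    have hfin : 2 * volume K / dLs K ≠ ⊤ := ENNReal.div_ne_top (ENNReal.mul_ne_top (by simp) hvt) hdpos
    have h2 : |dt b| ≤ (2 * volume K / dLs K).toReal := by
      rw [← ENNReal.ofReal_le_iff_le_toReal hfin]
      exact h1
    rw [hD]
    linarith
  obtain ⟨R, hR, hred⟩ := bdd_basis hρ hDpos
  have hvb : 0 < (volume (closedBall c (ρ / 2))).toReal := by
    refine ENNReal.toReal_pos ?_ (isCompact_closedBall _ _).measure_lt_top.ne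
    exact (measure_closedBall_pos volume c (by positivity)).ne'
  obtain ⟨R₁, hR₁⟩ := hK.1.isBounded.subset_closedBall (0 : V)
  -- normalised data, both types
  have hstep : ∀ k : ℕ, ∃ (r : ℝ) (v : V) (b : Fin 3 → V), 0 < r ∧ r < 1 / ((k : ℝ) + 1) ∧
      K \ ball x r ⊆ trunc K x r ∧ P2 (trunc K x r) v b ∧ dLs K < D2 K b ∧ (∀ w ∈ lat b, w ≠ 0 → ρ ≤ ‖w‖) ∧
      (volume (closedBall c (ρ / 2))).toReal ≤ |dt b| ∧ (∀ i, ‖b i‖ ≤ R) ∧ ‖v‖ ≤ 3 * R ∧
      ((∃ w ∈ lat b, w ≠ 0 ∧ (∃ z ∈ interior K, z - w ∈ interior K) ∧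
        ∀ z ∈ interior K, z - w ∈ interior K → dist z x ≤ r) ∨
       ∃ s ∈ lat b, dist ((1 / 2 : ℝ) • (v + s)) x ≤ r) := by
    intro k
    obtain ⟨r, hr, hrk, hsub, v, b, hb, hbd, hbn, hbv, htype⟩ :=
      mainSD hK hx hmin hρ hball hρc (r₀ := 1 / ((k : ℝ) + 1)) (by positivity)
    obtain ⟨b', h1, h2, h3⟩ := hred b hb.1 (hDb b hb.1 hbd) hbn
    have hb' := hb.congr h1 h2
    obtain ⟨s₀, hs₀, hn⟩ := red_v hb'.1 h3 v
    refine ⟨r, v + s₀, b', hr, hrk, hsub, hb'.shift hs₀, ?_, by rwa [h1], by rwa [h2], h3, hn, ?_⟩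
    · unfold D2 at hbd ⊢
      rwa [h2]
    · rw [h1] at hs₀ ⊢
      rcases htype with h | ⟨s, hs, hsd⟩
      · exact Or.inl h
      · refine Or.inr ⟨s - s₀, pack_sub_mem hs hs₀, ?_⟩
        have : v + s₀ + (s - s₀) = v + s := by abel
        rwa [this]
  choose r v b hr hrk hsub hP hbd hbn hbv hbR hvR htype using hstep
  have hrlim : Tendsto r atTop (𝓝 0) :=
    squeeze_zero (fun k => (hr k).le) (fun k => (hrk k).le) tendsto_one_div_add_atTop_nhds_zero_nat
  by_cases hI : ∃ᶠ k in atTop, ∃ s ∈ lat (b k), dist ((1 / 2 : ℝ) • (v k + s)) x ≤ r k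
  · obtain ⟨ψ, hψ, hψs⟩ := extraction_of_frequently_atTop hI
    choose s hs hsd using hψs
    have hrψ : Tendsto (fun k => r (ψ k)) atTop (𝓝 0) := hrlim.comp hψ.tendsto_atTop
    have hr1 : ∀ k, r k ≤ 1 := fun k => by
      refine (hrk k).le.trans ?_
      rw [div_le_one (by positivity)]
      linarith [Nat.cast_nonneg (α := ℝ) k]
    have hsn : ∀ k, ‖s k‖ ≤ 2 * (1 + ‖x‖) + 3 * R := by
      intro k
      have h1 : s k = (2 : ℝ) • (((1 / 2 : ℝ) • (v (ψ k) + s k) - x) + x) - v (ψ k) := by module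
      have h2 : ‖(1 / 2 : ℝ) • (v (ψ k) + s k) - x‖ ≤ 1 := by
        rw [← dist_eq_norm]
        exact (hsd k).trans (hr1 _)
      rw [h1]
      refine (norm_sub_le _ _).trans (add_le_add ?_ (hvR _))
      rw [norm_smul, Real.norm_of_nonneg (by norm_num)]
      have h3 := norm_add_le ((1 / 2 : ℝ) • (v (ψ k) + s k) - x) x
      linarith
    obtain ⟨φ, B, W, U, hφ, hlv, hlu, hBp, hdB, hUl⟩ := limT hK hxi hrψ hR.le hvb (fun k => hsub (ψ k))
      (fun k => hP (ψ k)) (fun k => hbd (ψ k)) (fun k => hbR (ψ k)) (fun k => hvR (ψ k)) hsn hs (fun k => hbv (ψ k))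
    refine ⟨W, B, hBp, hdB, Or.inr ⟨U, hUl, ?_⟩⟩
    have h1 : Tendsto (fun k => dist ((1 / 2 : ℝ) • (v (ψ (φ k)) + s (φ k))) x) atTop
        (𝓝 (dist ((1 / 2 : ℝ) • (W + U)) x)) := ((hlv.add hlu).const_smul _).dist tendsto_const_nhds
    have h2 := le_of_tendsto_of_tendsto' h1 (hrψ.comp hφ.tendsto_atTop) (fun k => hsd (φ k))
    have h3 := dist_le_zero.1 h2
    rw [← h3]
    module
  · rw [not_frequently] at hI
    obtain ⟨N, hN⟩ := eventually_atTop.1 hI
    have htI : ∀ k, ∃ w ∈ lat (b (k + N)), w ≠ 0 ∧ (∃ z ∈ interior K, z - w ∈ interior K) ∧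
        ∀ z ∈ interior K, z - w ∈ interior K → dist z x ≤ r (k + N) := by
      intro k
      rcases htype (k + N) with h | h
      · exact h
      · exact absurd h (hN _ (Nat.le_add_left _ _))
    choose w hw hw0 hz hzz using htI
    choose z hzK hzw using hz
    have hrN : Tendsto (fun k => r (k + N)) atTop (𝓝 0) := hrlim.comp (tendsto_add_atTop_nat N)
    have hwb : ∀ k, ‖w k‖ ≤ R₁ + R₁ := by
      intro k
      have h1 := hR₁ (interior_subset (hzK k))
      have h2 := hR₁ (interior_subset (hzw k))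
      rw [mem_closedBall, dist_zero_right] at h1 h2
      have : w k = z k - (z k - w k) := by abel
      rw [this]
      exact (norm_sub_le _ _).trans (add_le_add h1 h2)
    have hzlim : Tendsto z atTop (𝓝 x) := by
      rw [tendsto_iff_dist_tendsto_zero]
      exact squeeze_zero (fun k => dist_nonneg) (fun k => hzz k _ (hzK k) (hzw k)) hrN
    obtain ⟨φ, B, W, U, hφ, hlv, hlu, hBp, hdB, hUl⟩ := limT hK hxi hrN hR.le hvb (fun k => hsub (k + N))
      (fun k => hP (k + N)) (fun k => hbd (k + N)) (fun k => hbR (k + N)) (fun k => hvR (k + N)) hwb hw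
      (fun k => hbv (k + N))
    have hφt := hφ.tendsto_atTop
    have hlz : Tendsto (fun k => z (φ k)) atTop (𝓝 x) := hzlim.comp hφt
    have hlr : Tendsto (fun k => r (φ k + N)) atTop (𝓝 0) := hrN.comp hφt
    have hU0 : U ≠ 0 := by
      have h1 : ρ ≤ ‖U‖ := ge_of_tendsto' hlu.norm (fun k => hbn _ _ (hw _) (hw0 _))
      intro h
      rw [h, norm_zero] at h1
      linarith
    have hxU : x - U ∈ K :=
      hK.1.isClosed.mem_of_tendsto (hlz.sub hlu) (Eventually.of_forall fun k => interior_subset (hzw _))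
    refine ⟨W, B, hBp, hdB, Or.inl ⟨U, hUl, hU0, hxU, ?_⟩⟩
    intro p q hp hpU hq hqU
    by_contra hcon
    push Not at hcon
    refine coll_of_lim hK.2.1 hK.2.2 hlu hlr
      (fun y h1 h2 => hBp.2.1 U hUl hU0 y h1 (y - U) h2 (by abel))
      (fun k => ⟨z (φ k), hzK _, hzw _⟩) (fun k => hzz (φ k)) hxK hxU hp hpU hq hqU ?_
    intro s t hst
    by_contra h
    refine hcon s t ?_ hst
    by_contra h'
    push Not at h'
    exact h h'

end Run7.h179.EX
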