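import Pool.Agent.Run7.h179.EX.Cut

/-! Extreme points of minimisers of the lattice packing density. -/

set_option autoImplicit false

namespace Run7.h179.EX

open MeasureTheory Filter Topology Set Metric
open scoped ENNReal
open Pool.Agent.H349R2.Tet Pool.Agent.TH219.DL

theorem mem_false (K : Set V) (c : V) : mem K (false, c) = tr K c := by
  unfold mem tr
  simp

theorem packs_famL (K : Set V) (b : Fin 3 → V) :
    (LinearIndependent ℝ b ∧ IsPack K (famL b)) ↔ Packs K b := by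
  unfold Packs
  refine and_congr_right fun _ => ⟨fun h u hu v hv huv => ?_, fun h p hp q hq hpq => ?_⟩
  · have := h (false, u) ⟨rfl, hu⟩ (false, v) ⟨rfl, hv⟩ (fun e => huv (congrArg Prod.snd e))
    rwa [mem_false, mem_false] at this
  · obtain ⟨p1, p2⟩ := p
    obtain ⟨q1, q2⟩ := q
    obtain ⟨rfl, hp⟩ := hp
    obtain ⟨rfl, hq⟩ := hq
    rw [mem_false, mem_false]
    exact h p2 hp q2 hq (fun e => hpq (by rw [show p2 = q2 from e]))

theorem den_famL (K : Set V) (b : Fin 3 → V) : den K (famL b) = dens K b := by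
  unfold den dens
  congr 1
  funext r
  congr 1
  let e : lat b ≃ famL b :=
    { toFun := fun u => ⟨(false, u.1), rfl, u.2⟩
      invFun := fun p => ⟨p.1.2, p.2.2⟩
      left_inv := fun u => rfl
      right_inv := fun p => by
        obtain ⟨⟨p1, p2⟩, hp1, hp2⟩ := p
        have : p1 = false := hp1
        subst this
        rfl }
  rw [← e.tsum_eq]
  refine tsum_congr fun u => ?_
  show volume (mem K (false, u.1) ∩ Bl r) = _
  rw [mem_false]

theorem dL_eq (K : Set V) : dL K = deltaL K := by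
  unfold dL deltaL
  refine iSup_congr fun b => ?_
  refine iSup_congr_Prop (packs_famL K b) fun _ => den_famL K b

theorem dL_le_one {K : Set V} (hK : Body K) : dL K ≤ 1 := by
  rw [dL_eq]
  exact iSup₂_le fun b hb => dens_le_one hK.2.1 hb

theorem packs_mono {A B : Set V} (h : B ⊆ A) {b : Fin 3 → V} (hA : Packs A b) : Packs B b := by
  rw [packs_iff] at hA ⊢
  refine ⟨hA.1, fun u hu hu0 => ?_⟩
  rintro ⟨z, h1, h2⟩
  exact hA.2 u hu hu0 ⟨z, interior_mono h h1, interior_mono h h2⟩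

/-- the linear part of the homothety -/
noncomputable def Lσ (σ : ℝ) (h : σ ≠ 0) : V ≃ₗ[ℝ] V := LinearEquiv.smulOfNeZero ℝ V σ h

theorem Lσ_apply (σ : ℝ) (h : σ ≠ 0) (y : V) : Lσ σ h y = σ • y := rfl

theorem det_Lσ (σ : ℝ) (h : σ ≠ 0) : LinearMap.det (Lσ σ h).toLinearMap = σ ^ 3 := by
  have : (Lσ σ h).toLinearMap = σ • LinearMap.id := by
    ext
    rfl
  rw [this, LinearMap.det_smul, LinearMap.det_id, mul_one]
  simp

theorem choose_r {D R ε : ℝ} (hD : 0 < D) (hε : 0 < ε) {m a : ℝ≥0∞} (ha : a ≠ ⊤) (hm : m < a) :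
    ∃ r₀ : ℝ, 0 < r₀ ∧ ∀ r : ℝ, 0 < r → r < r₀ → 2 * r < D ∧ r ≤ 1 ∧
      m < ENNReal.ofReal ((1 - 2 * r / D) ^ 3) * a ∧ r + ((1 - 2 * r / D)⁻¹ - 1) * (R + 1) < ε := by
  have c1 : Continuous (fun r : ℝ => 1 - 2 * r / D) := by fun_prop
  have t1 : Tendsto (fun r : ℝ => 1 - 2 * r / D) (𝓝[>] 0) (𝓝 1) := by
    have h0 : Tendsto (fun r : ℝ => 1 - 2 * r / D) (𝓝[>] 0) (𝓝 (1 - 2 * 0 / D)) :=
      (c1.tendsto 0).mono_left nhdsWithin_le_nhds
    simpa using h0
  have t2 : Tendsto (fun r : ℝ => ENNReal.ofReal ((1 - 2 * r / D) ^ 3) * a) (𝓝[>] 0) (𝓝 (1 * a)) := by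
    refine ENNReal.Tendsto.mul_const ?_ (Or.inr ha)
    have := ENNReal.tendsto_ofReal (t1.pow 3)
    simpa using this
  have t3 : Tendsto (fun r : ℝ => r + ((1 - 2 * r / D)⁻¹ - 1) * (R + 1)) (𝓝[>] 0) (𝓝 (0 + ((1:ℝ)⁻¹ - 1) * (R + 1))) := by
    refine (tendsto_id.mono_left nhdsWithin_le_nhds).add (((t1.inv₀ one_ne_zero).sub_const 1).mul_const _)
  rw [one_mul] at t2
  rw [inv_one, sub_self, zero_mul, add_zero] at t3
  have e1 : ∀ᶠ r : ℝ in 𝓝[>] 0, 2 * r < D := by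
    have : Tendsto (fun r : ℝ => 2 * r) (𝓝[>] 0) (𝓝 0) := by
      have c2 : Continuous fun r : ℝ => 2 * r := by fun_prop
      have h0 : Tendsto (fun r : ℝ => 2 * r) (𝓝[>] 0) (𝓝 (2 * 0)) :=
        (c2.tendsto 0).mono_left nhdsWithin_le_nhds
      rwa [mul_zero] at h0
    exact this.eventually_lt_const hD
  have e2 : ∀ᶠ r : ℝ in 𝓝[>] 0, r ≤ 1 := by
    have : Tendsto (fun r : ℝ => r) (𝓝[>] 0) (𝓝 0) := tendsto_id.mono_left nhdsWithin_le_nhds
    exact this.eventually_le_const one_pos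
  have e := e1.and (e2.and ((t2.eventually_const_lt hm).and (t3.eventually_lt_const hε)))
  obtain ⟨r₀, h0, hr₀⟩ := mem_nhdsGT_iff_exists_Ioo_subset.1 e
  exact ⟨r₀, h0, fun r h1 h2 => hr₀ ⟨h1, h2⟩⟩

/-- **Main step.** -/
theorem mainL {K : Set V} (hK : Body K) {x : V} (hx : x ∈ K.extremePoints ℝ)
    (hmin : ∀ r₀ : ℝ, 0 < r₀ → ∃ r : ℝ, 0 < r ∧ r < r₀ ∧ dL K ≤ dL (trunc K x r)) {ε : ℝ} (hε : 0 < ε) {m : ℝ≥0∞} (hm : m < dL K) :
    ∃ b : Fin 3 → V, Packs K b ∧ m < dens K b ∧ ∃ u ∈ lat b, u ≠ 0 ∧ ∃ y ∈ K, dist x (y + u) < ε := by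
  obtain ⟨c, hcK, D, hD, hcut⟩ := cut hK hx
  obtain ⟨R, hR⟩ : ∃ R : ℝ, ∀ y ∈ K, dist x y ≤ R := by
    obtain ⟨R, hR⟩ := hK.1.isBounded.subset_closedBall x
    exact ⟨R, fun y hy => by have := hR hy; rwa [mem_closedBall, dist_comm] at this⟩
  have hR0 : 0 ≤ R := (dist_nonneg).trans (hR c hcK)
  have hfin : dL K ≠ ⊤ := ((dL_le_one hK).trans_lt ENNReal.one_lt_top).ne
  have hne0 : dL K ≠ 0 := (lt_of_le_of_lt zero_le hm).ne'
  obtain ⟨r₀, hr₀, hch⟩ := choose_r (R := R) hD hε hfin hm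
  obtain ⟨r, hr, hrr, hdle⟩ := hmin r₀ hr₀
  obtain ⟨hrD, hr1, hrm, hrε⟩ := hch r hr hrr
  obtain ⟨hK'K, hK', hxK', hKb, hvol, hhom⟩ := hcut r hr hrD
  generalize trunc K x r = K' at hK'K hK' hxK' hKb hvol hhom hdle
  have hs2 : 2 * r / D < 1 := by rw [div_lt_one hD]; exact hrD
  have hs1 : 0 < 2 * r / D := by positivity
  obtain ⟨σ, hσ⟩ : ∃ σ : ℝ, σ = 1 - 2 * r / D := ⟨_, rfl⟩
  rw [← hσ] at hrm hrε
  have hσ0 : 0 < σ := by rw [hσ]; linarith
  have hσ1 : σ < 1 := by rw [hσ]; linarith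
  have hhom' : ∀ y ∈ K, c + σ • (y - c) ∈ K' := by rw [hσ]; exact hhom
  obtain ⟨hv0, hvt⟩ := body_vol hK
  obtain ⟨hv0', hvt'⟩ := body_vol hK'
  have hσ3 : ENNReal.ofReal (σ ^ 3) ≠ 0 := by
    rw [ne_eq, ENNReal.ofReal_eq_zero, not_le]; positivity
  -- the threshold
  have ht1 : m / ENNReal.ofReal (σ ^ 3) < dL K := by
    refine ENNReal.div_lt_of_lt_mul' hrm
  have ht2 : dL K * (volume K' / volume K) < dL K := by
    have h1 : volume K' / volume K < 1 := by
      rw [ENNReal.div_lt_iff (Or.inl hv0) (Or.inl hvt), one_mul]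
      exact hvol
    calc dL K * (volume K' / volume K) < dL K * 1 := (ENNReal.mul_lt_mul_iff_right hne0 hfin).2 h1
      _ = dL K := mul_one _
  have hlt : max (m / ENNReal.ofReal (σ ^ 3)) (dL K * (volume K' / volume K)) < deltaL K' := by
    rw [← dL_eq]
    exact lt_of_lt_of_le (max_lt ht1 ht2) hdle
  obtain ⟨b, hb⟩ := lt_iSup_iff.1 hlt
  obtain ⟨hbp, hbd⟩ := lt_iSup_iff.1 hb
  have hb1 := lt_of_le_of_lt (le_max_left _ _) hbd
  have hb2 := lt_of_le_of_lt (le_max_right _ _) hbd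
  have hli : LinearIndependent ℝ b := hbp.1
  -- the expanded lattice
  obtain ⟨b'', hb''⟩ : ∃ b'' : Fin 3 → V, b'' = fun i => σ⁻¹ • b i := ⟨_, rfl⟩
  have hLb : (fun i => Lσ σ hσ0.ne' (b'' i)) = b := by
    funext i
    rw [hb'', Lσ_apply, smul_smul, mul_inv_cancel₀ hσ0.ne', one_smul]
  have himg : (fun y => Lσ σ hσ0.ne' y + (1 - σ) • c) '' K ⊆ K' := by
    rintro _ ⟨y, hy, rfl⟩
    have := hhom' y hy
    convert this using 1
    simp only [Lσ_apply, smul_sub, sub_smul, one_smul]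
    abel
  have hp'' : Packs K b'' := by
    rw [← packs_image K (Lσ σ hσ0.ne') ((1 - σ) • c) b'', hLb]
    exact packs_mono himg hbp
  have hd'' : m < dens K b'' := by
    have e1 := ratio_image K (Lσ σ hσ0.ne') ((1 - σ) • c) b'' ((dt_ne_zero_iff b'').2 hp''.1)
    rw [hLb, pack_volume_image, det_Lσ, abs_of_pos (by positivity)] at e1
    rw [dens_eq b'' hp''.1 K hK.1, ← e1]
    rw [dens_eq b hli K' hK'.1] at hb1
    have e2 : m < ENNReal.ofReal (σ ^ 3) * (volume K' / ENNReal.ofReal |dt b|) := by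
      rw [ENNReal.div_lt_iff (Or.inl hσ3) (Or.inl ENNReal.ofReal_ne_top), mul_comm] at hb1
      exact hb1
    refine e2.trans_le ?_
    rw [← mul_div_assoc]
    exact ENNReal.div_le_div_right (mul_le_mul_right (measure_mono hK'K) _) _
  by_cases hcase : ∃ u ∈ lat b'', u ≠ 0 ∧ ∃ y ∈ K, dist x (y + u) < ε
  · exact ⟨b'', hp'', hd'', hcase⟩
  exfalso
  push Not at hcase
  have claimA : ∀ w ∈ lat b, w ≠ 0 → ∀ y ∈ K, r ≤ dist x (y + w) := by
    intro w hw hw0 y hy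
    have hu : σ⁻¹ • w ∈ lat b'' := by
      rw [← pack_lat_image (Lσ σ hσ0.ne') b'' (σ⁻¹ • w), hLb, Lσ_apply, smul_smul,
        mul_inv_cancel₀ hσ0.ne', one_smul]
      exact hw
    have hu0 : σ⁻¹ • w ≠ 0 := smul_ne_zero (inv_ne_zero hσ0.ne') hw0
    have h1 := hcase _ hu hu0 y hy
    have hinv : 1 < σ⁻¹ := (one_lt_inv₀ hσ0).2 hσ1
    by_cases hwR : ‖w‖ ≤ R + 1
    · have h2 : dist x (y + σ⁻¹ • w) ≤ dist x (y + w) + dist (y + w) (y + σ⁻¹ • w) := dist_triangle _ _ _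
      have h3 : dist (y + w) (y + σ⁻¹ • w) = (σ⁻¹ - 1) * ‖w‖ := by
        rw [dist_add_left, dist_comm, dist_eq_norm]
        have : σ⁻¹ • w - w = (σ⁻¹ - 1) • w := by rw [sub_smul, one_smul]
        rw [this, norm_smul, Real.norm_of_nonneg (by linarith)]
      have h4 : (σ⁻¹ - 1) * ‖w‖ ≤ (σ⁻¹ - 1) * (R + 1) := mul_le_mul_of_nonneg_left hwR (by linarith)
      linarith
    · have h2 : dist (y + w) y ≤ dist (y + w) x + dist x y := dist_triangle _ _ _
      have h3 : dist (y + w) y = ‖w‖ := by rw [dist_eq_norm, add_sub_cancel_left]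
      rw [dist_comm (y + w) x] at h2
      have h4 := hR y hy
      push Not at hwR
      linarith
  have hneg : ∀ w ∈ lat b, -w ∈ lat b := fun w hw => by
    have := pack_sub_mem (pack_zero_mem b) hw
    rwa [zero_sub] at this
  have hpK : Packs K b := by
    rw [packs_iff] at hbp ⊢
    refine ⟨hbp.1, fun w hw hw0 => ?_⟩
    rintro ⟨z, hz, hzw⟩
    have key : ∀ z, z ∈ interior K → z - w ∈ interior K → z ∈ K' ∧ z - w ∈ K' := by
      intro z hz hzw
      have a1 := claimA w hw hw0 (z - w) (interior_subset hzw)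
      rw [sub_add_cancel] at a1
      have a2 := claimA (-w) (hneg w hw) (neg_ne_zero.2 hw0) z (interior_subset hz)
      rw [← sub_eq_add_neg] at a2
      refine ⟨hKb ⟨interior_subset hz, fun h => ?_⟩, hKb ⟨interior_subset hzw, fun h => ?_⟩⟩
      · rw [mem_ball, dist_comm] at h
        linarith
      · rw [mem_ball, dist_comm] at h
        linarith
    refine hbp.2 w hw hw0 ⟨z, ?_, ?_⟩
    · refine mem_interior.2 ⟨interior K ∩ (fun y => y - w) ⁻¹' interior K, ?_, ?_, hz, hzw⟩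
      · rintro y ⟨h1, h2⟩
        exact (key y h1 h2).1
      · exact isOpen_interior.inter (isOpen_interior.preimage (by fun_prop))
    · refine mem_interior.2 ⟨interior K ∩ (fun y => y + w) ⁻¹' interior K, ?_, ?_, hzw, ?_⟩
      · rintro y ⟨h1, h2⟩
        have := (key (y + w) h2 (by rwa [add_sub_cancel_right])).2
        rwa [add_sub_cancel_right] at this
      · exact isOpen_interior.inter (isOpen_interior.preimage (by fun_prop))
      · show z - w + w ∈ interior K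
        rwa [sub_add_cancel]
  have hle : dens K b ≤ dL K := by
    rw [dL_eq]
    exact le_iSup₂_of_le b hpK le_rfl
  rw [dens_eq b hli K hK.1] at hle
  rw [dens_eq b hli K' hK'.1] at hb2
  have h3 : volume K / ENNReal.ofReal |dt b| * (volume K' / volume K) ≤ dL K * (volume K' / volume K) :=
    mul_le_mul_left hle _
  have h4 : volume K / ENNReal.ofReal |dt b| * (volume K' / volume K) = volume K' / ENNReal.ofReal |dt b| := by
    rw [div_eq_mul_inv, div_eq_mul_inv, div_eq_mul_inv]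
    calc volume K * (ENNReal.ofReal |dt b|)⁻¹ * (volume K' * (volume K)⁻¹)
        = (volume K * (volume K)⁻¹) * (volume K' * (ENNReal.ofReal |dt b|)⁻¹) := by ring
      _ = _ := by rw [ENNReal.mul_inv_cancel hv0 hvt, one_mul]
  rw [h4] at h3
  exact absurd hb2 (not_lt.2 h3)

end Run7.h179.EX
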