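import Pool.Agent.Run7.h361.Rel
import Pool.Agent.Run7.h179.EX.MainL

/-! Limits of lattice vectors. -/

set_option autoImplicit false

namespace Run7.h179.EX

open MeasureTheory Filter Topology Set Metric
open scoped ENNReal
open Pool.Agent.H349R2.Tet Pool.Agent.TH219.DL
open Run7.h361 (iv im red_norm mul_im_col im_det im_mulVec)
open Matrix

theorem mulVec_eq (b : Fin 3 → V) (n : Fin 3 → ℤ) :
    (Matrix.of b)ᵀ *ᵥ iv n = ∑ i, (n i : ℝ) • b i := by
  ext k
  simp [Matrix.mulVec, dotProduct, Fin.sum_univ_three, mul_comm]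

/-- coordinates with respect to `b`, times the determinant -/
noncomputable def cf (b : Fin 3 → V) (u : V) : V := (Matrix.of b)ᵀ.adjugate *ᵥ u

theorem cf_cont : Continuous (fun p : (Fin 3 → V) × V => cf p.1 p.2) := by
  unfold cf
  have h1 : Continuous (fun p : (Fin 3 → V) × V => (Matrix.of p.1)ᵀ.adjugate) := by
    apply Continuous.matrix_adjugate
    apply Continuous.matrix_transpose
    exact continuous_fst
  exact Continuous.matrix_mulVec h1 continuous_snd

theorem cf_mul (b : Fin 3 → V) (w : V) : cf b ((Matrix.of b)ᵀ *ᵥ w) = dt b • w := by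
  unfold cf dt
  rw [Matrix.mulVec_mulVec, Matrix.adjugate_mul, Matrix.det_transpose, Matrix.smul_mulVec, Matrix.one_mulVec]

theorem mul_cf (b : Fin 3 → V) (u : V) : (Matrix.of b)ᵀ *ᵥ (cf b u) = dt b • u := by
  unfold cf dt
  rw [Matrix.mulVec_mulVec, Matrix.mul_adjugate, Matrix.det_transpose, Matrix.smul_mulVec, Matrix.one_mulVec]

attribute [irreducible] cf

theorem cf_lim {b : ℕ → Fin 3 → V} {u : ℕ → V} {B : Fin 3 → V} {U : V} (hb : Tendsto b atTop (𝓝 B))
    (hu : Tendsto u atTop (𝓝 U)) : Tendsto (fun k => cf (b k) (u k)) atTop (𝓝 (cf B U)) := by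
  have h4 := cf_cont.tendsto (B, U)
  have h5 : Tendsto (fun k => (b k, u k)) atTop (𝓝 (B, U)) := hb.prodMk_nhds hu
  have h6 := h4.comp h5
  exact h6

theorem int_lim {z : ℕ → Fin 3 → ℤ} {w : V} (h : Tendsto (fun k => iv (z k)) atTop (𝓝 w)) :
    ∃ n : Fin 3 → ℤ, iv n = w := by
  have hint : ∀ i, ∃ n : ℤ, (n : ℝ) = w i := by
    intro i
    have h1 : Tendsto (fun k => ((z k i : ℤ) : ℝ)) atTop (𝓝 (w i)) := (tendsto_pi_nhds.1 h) i
    have h2 := Int.isClosedEmbedding_coe_real.isClosed_range.mem_of_tendsto h1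
      (Eventually.of_forall fun k => ⟨z k i, rfl⟩)
    exact h2
  choose n hn using hint
  exact ⟨n, funext hn⟩

theorem lim_lat {b : ℕ → Fin 3 → V} {u : ℕ → V} {B : Fin 3 → V} {U : V} (hb : Tendsto b atTop (𝓝 B))
    (hu : Tendsto u atTop (𝓝 U)) (hdt : Tendsto (fun k => dt (b k)) atTop (𝓝 (dt B)))
    (hne : ∀ k, dt (b k) ≠ 0) (hB : dt B ≠ 0) (hmem : ∀ k, u k ∈ lat (b k)) : U ∈ lat B := by
  choose z hz using hmem
  have h1 : ∀ k, iv (z k) = (dt (b k))⁻¹ • cf (b k) (u k) := by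
    intro k
    rw [hz k, ← mulVec_eq, cf_mul, smul_smul, inv_mul_cancel₀ (hne k), one_smul]
  have h2 := cf_lim hb hu
  have h3 : Tendsto (fun k => iv (z k)) atTop (𝓝 ((dt B)⁻¹ • cf B U)) := by
    have h4 : (fun k => iv (z k)) = fun k => (dt (b k))⁻¹ • cf (b k) (u k) := funext h1
    rw [h4]
    exact Filter.Tendsto.smul (hdt.inv₀ hB) h2
  obtain ⟨n, hn⟩ := int_lim h3
  refine ⟨n, ?_⟩
  rw [← mulVec_eq, hn, Matrix.mulVec_smul, mul_cf, smul_smul, inv_mul_cancel₀ hB, one_smul]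

theorem cont_dt : Continuous (fun b : Fin 3 → V => dt b) := by
  unfold dt
  exact Continuous.matrix_det continuous_id

end Run7.h179.EX
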