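import Pool.Agent.Run7.h179.EX.Dbl

/-! Extreme points of minimisers of the double lattice packing density. -/

set_option autoImplicit false

namespace Run7.h179.EX

open MeasureTheory Filter Topology Set Metric
open scoped ENNReal
open Pool.Agent.H349R2.Tet Pool.Agent.TH219.DL

theorem mainD {K : Set V} (hK : Body K) {x : V} (hx : x ∈ K.extremePoints ℝ)
    (hmin : ∀ r₀ : ℝ, 0 < r₀ → ∃ r : ℝ, 0 < r ∧ r < r₀ ∧ dLs K ≤ dLs (trunc K x r)) {ε : ℝ}
    (hε : 0 < ε) {m : ℝ≥0∞} (hm : m < dLs K) :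
    ∃ (v : V) (b : Fin 3 → V), P2 K v b ∧ m < D2 K b ∧
      ((∃ u ∈ lat b, u ≠ 0 ∧ ∃ y ∈ K, dist x (y + u) < ε) ∨
        ∃ u ∈ lat b, ∃ y ∈ K, dist x (v - y + u) < ε) := by
  obtain ⟨c, hcK, D, hD, hcut⟩ := cut hK hx
  obtain ⟨R, hR⟩ : ∃ R : ℝ, ∀ y ∈ K, dist x y ≤ R := by
    obtain ⟨R, hR⟩ := hK.1.isBounded.subset_closedBall x
    exact ⟨R, fun y hy => by have := hR hy; rwa [mem_closedBall, dist_comm] at this⟩
  have hR0 : 0 ≤ R := (dist_nonneg).trans (hR c hcK)
  have hfin : dLs K ≠ ⊤ := dLs_fin hK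
  have hne0 : dLs K ≠ 0 := (lt_of_le_of_lt zero_le hm).ne'
  obtain ⟨r₀, hr₀, hch⟩ := choose_r (R := 3 * R) hD hε hfin hm
  obtain ⟨r, hr, hrr, hdle⟩ := hmin r₀ hr₀
  obtain ⟨hrD, hr1, hrm, hrε⟩ := hch r hr hrr
  obtain ⟨hK'K, hK', hxK', hKb, hvol, hhom⟩ := hcut r hr hrD
  generalize trunc K x r = K' at hK'K hK' hxK' hKb hvol hhom hdle
  have hs2 : 2 * r / D < 1 := by rw [div_lt_one hD]; exact hrD
  have hs1 : 0 < 2 * r / D := by positivity
  obtain ⟨σ, hσ⟩ : ∃ σ : ℝ, σ = 1 - 2 * r / D := ⟨_, rfl⟩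
  rw [← hσ] at hrm hrε
  have hσ0 : 0 < σ := by rw [hσ]; linarith
  have hσ1 : σ < 1 := by rw [hσ]; linarith
  have hhom' : ∀ y ∈ K, c + σ • (y - c) ∈ K' := by rw [hσ]; exact hhom
  have hinv : 1 < σ⁻¹ := (one_lt_inv₀ hσ0).2 hσ1
  obtain ⟨hv0, hvt⟩ := body_vol hK
  obtain ⟨hv0', hvt'⟩ := body_vol hK'
  have hσ3 : ENNReal.ofReal (σ ^ 3) ≠ 0 := by
    rw [ne_eq, ENNReal.ofReal_eq_zero, not_le]; positivity
  -- the threshold
  have ht1 : m / ENNReal.ofReal (σ ^ 3) < dLs K := by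
    refine ENNReal.div_lt_of_lt_mul' hrm
  have ht2 : dLs K * (volume K' / volume K) < dLs K := by
    have h1 : volume K' / volume K < 1 := by
      rw [ENNReal.div_lt_iff (Or.inl hv0) (Or.inl hvt), one_mul]
      exact hvol
    calc dLs K * (volume K' / volume K) < dLs K * 1 := (ENNReal.mul_lt_mul_iff_right hne0 hfin).2 h1
      _ = dLs K := mul_one _
  have hlt : max (m / ENNReal.ofReal (σ ^ 3)) (dLs K * (volume K' / volume K)) <
      ⨆ (v : V) (b : Fin 3 → V) (_ : P2 K' v b), D2 K' b := by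
    rw [← dLs_eq hK']
    exact lt_of_lt_of_le (max_lt ht1 ht2) hdle
  obtain ⟨v, hv⟩ := lt_iSup_iff.1 hlt
  obtain ⟨b, hb⟩ := lt_iSup_iff.1 hv
  obtain ⟨hbp, hbd⟩ := lt_iSup_iff.1 hb
  have hb1 := lt_of_le_of_lt (le_max_left _ _) hbd
  have hb2 := lt_of_le_of_lt (le_max_right _ _) hbd
  have hdt0 : dt b ≠ 0 := hbp.1
  -- the expanded lattice
  obtain ⟨b'', hb''⟩ : ∃ b'' : Fin 3 → V, b'' = fun i => σ⁻¹ • b i := ⟨_, rfl⟩
  obtain ⟨v'', hv''⟩ : ∃ v'' : V, v'' = σ⁻¹ • v - (2 * (σ⁻¹ - 1)) • c := ⟨_, rfl⟩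
  have hLb : (fun i => Lσ σ hσ0.ne' (b'' i)) = b := by
    funext i
    rw [hb'', Lσ_apply, smul_smul, mul_inv_cancel₀ hσ0.ne', one_smul]
  have himg : (fun y => Lσ σ hσ0.ne' y + (1 - σ) • c) '' K ⊆ K' := by
    rintro _ ⟨y, hy, rfl⟩
    have := hhom' y hy
    convert this using 1
    simp only [Lσ_apply, smul_sub, sub_smul, one_smul]
    abel
  have hint : ∀ y ∈ interior K, σ • y + (1 - σ) • c ∈ interior K' := by
    intro y hy
    have h1 := interior_mono himg
    rw [pack_interior_image] at h1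
    exact h1 ⟨y, hy, rfl⟩
  have hdet : dt b = σ ^ 3 * dt b'' := by
    have := pack_dt_image (Lσ σ hσ0.ne') b''
    rw [hLb, det_Lσ] at this
    exact this
  have hdt''0 : dt b'' ≠ 0 := by
    intro h
    rw [h, mul_zero] at hdet
    exact hdt0 hdet
  have hlat'' : ∀ s, s ∈ lat b'' → σ • s ∈ lat b := by
    intro s hs
    rw [← pack_lat_image (Lσ σ hσ0.ne') b'' s, hLb, Lσ_apply] at hs
    exact hs
  have hlatI : ∀ w, w ∈ lat b → σ⁻¹ • w ∈ lat b'' := by
    intro w hw
    rw [← pack_lat_image (Lσ σ hσ0.ne') b'' (σ⁻¹ • w), hLb, Lσ_apply, smul_smul,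
      mul_inv_cancel₀ hσ0.ne', one_smul]
    exact hw
  have hp'' : P2 K v'' b'' := by
    refine ⟨hdt''0, ?_, ?_⟩
    · intro s hs hs0 z hz y hy hzy
      refine hbp.2.1 (σ • s) (hlat'' s hs) (smul_ne_zero hσ0.ne' hs0) _ (hint z hz) _ (hint y hy) ?_
      rw [← hzy, smul_sub]
      abel
    · intro s hs z hz y hy hzy
      refine hbp.2.2 (σ • s) (hlat'' s hs) _ (hint z hz) _ (hint y hy) ?_
      have h1 : σ • z + (1 - σ) • c + (σ • y + (1 - σ) • c) = σ • (z + y) + (2 * (1 - σ)) • c := by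
        rw [smul_add, two_mul, add_smul]
        abel
      rw [h1, hzy, hv'', smul_add, smul_sub, smul_smul, smul_smul, mul_inv_cancel₀ hσ0.ne', one_smul]
      have h2 : σ * (2 * (σ⁻¹ - 1)) = 2 * (1 - σ) := by
        field_simp
      rw [h2]
      abel
  have hd'' : m < D2 K b'' := by
    unfold D2 at hb1 ⊢
    have e3 : volume K / ENNReal.ofReal |dt b''| = ENNReal.ofReal (σ ^ 3) * volume K / ENNReal.ofReal |dt b| := by
      have e1 := ratio_image K (Lσ σ hσ0.ne') ((1 - σ) • c) b'' hdt''0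
      rw [hLb, pack_volume_image, det_Lσ, abs_of_pos (by positivity)] at e1
      exact e1.symm
    rw [e3]
    have e2 : m < ENNReal.ofReal (σ ^ 3) * (2 * (volume K' / ENNReal.ofReal |dt b|)) := by
      rw [ENNReal.div_lt_iff (Or.inl hσ3) (Or.inl ENNReal.ofReal_ne_top), mul_comm] at hb1
      exact hb1
    refine e2.trans_le ?_
    calc ENNReal.ofReal (σ ^ 3) * (2 * (volume K' / ENNReal.ofReal |dt b|))
        = 2 * (ENNReal.ofReal (σ ^ 3) * (volume K' / ENNReal.ofReal |dt b|)) := by ring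
      _ = 2 * (ENNReal.ofReal (σ ^ 3) * volume K' / ENNReal.ofReal |dt b|) := by rw [mul_div_assoc]
      _ ≤ 2 * (ENNReal.ofReal (σ ^ 3) * volume K / ENNReal.ofReal |dt b|) :=
          mul_le_mul_right (ENNReal.div_le_div_right (mul_le_mul_right (measure_mono hK'K) _) _) _
  by_cases hcase : ∃ u ∈ lat b'', u ≠ 0 ∧ ∃ y ∈ K, dist x (y + u) < ε
  · exact ⟨v'', b'', hp'', hd'', Or.inl hcase⟩
  by_cases hcase2 : ∃ u ∈ lat b'', ∃ y ∈ K, dist x (v'' - y + u) < ε
  · exact ⟨v'', b'', hp'', hd'', Or.inr hcase2⟩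
  exfalso
  push Not at hcase hcase2
  have claimA : ∀ w ∈ lat b, w ≠ 0 → ∀ y ∈ K, r ≤ dist x (y + w) := by
    intro w hw hw0 y hy
    by_contra hcon
    push Not at hcon
    have h1 := hcase _ (hlatI w hw) (smul_ne_zero (inv_ne_zero hσ0.ne') hw0) y hy
    have h2 : dist x (y + σ⁻¹ • w) ≤ dist x (y + w) + dist (y + w) (y + σ⁻¹ • w) := dist_triangle _ _ _
    have h3 : dist (y + w) (y + σ⁻¹ • w) = (σ⁻¹ - 1) * ‖w‖ := by
      rw [dist_add_left, dist_comm, dist_eq_norm]
      have : σ⁻¹ • w - w = (σ⁻¹ - 1) • w := by rw [sub_smul, one_smul]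
      rw [this, norm_smul, Real.norm_of_nonneg (by linarith)]
    have h4 : ‖w‖ ≤ 3 * R + 1 := by
      have h5 : ‖w‖ = dist (y + w) y := by rw [dist_eq_norm, add_sub_cancel_left]
      have h6 := dist_triangle (y + w) x y
      rw [dist_comm (y + w) x] at h6
      have h7 := hR y hy
      linarith
    have h8 : (σ⁻¹ - 1) * ‖w‖ ≤ (σ⁻¹ - 1) * (3 * R + 1) := mul_le_mul_of_nonneg_left h4 (by linarith)
    linarith
  have claimB : ∀ w ∈ lat b, ∀ y ∈ K, r ≤ dist x (v - y + w) := by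
    intro w hw y hy
    by_contra hcon
    push Not at hcon
    have h1 := hcase2 _ (hlatI w hw) y hy
    have h2 : dist x (v'' - y + σ⁻¹ • w) ≤ dist x (v - y + w) + dist (v - y + w) (v'' - y + σ⁻¹ • w) :=
      dist_triangle _ _ _
    have h3 : dist (v - y + w) (v'' - y + σ⁻¹ • w) = (σ⁻¹ - 1) * ‖v + w - (2 : ℝ) • c‖ := by
      rw [dist_comm, dist_eq_norm]
      have : v'' - y + σ⁻¹ • w - (v - y + w) = (σ⁻¹ - 1) • (v + w - (2 : ℝ) • c) := by
        rw [hv'', smul_sub, smul_add, smul_smul, mul_comm (2 : ℝ) (σ⁻¹ - 1)]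
        simp only [sub_smul, one_smul]
        abel
      rw [this, norm_smul, Real.norm_of_nonneg (by linarith)]
    have h4 : ‖v + w - (2 : ℝ) • c‖ ≤ 3 * R + 1 := by
      have h5 : v + w - (2 : ℝ) • c = (v - y + w - x) + ((x - c) + ((y - x) + (x - c))) := by
        rw [two_smul]; abel
      rw [h5]
      have h6 := norm_add_le (v - y + w - x) ((x - c) + ((y - x) + (x - c)))
      have h7 := norm_add_le (x - c) ((y - x) + (x - c))
      have h8 := norm_add_le (y - x) (x - c)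
      rw [← dist_eq_norm (v - y + w) x, dist_comm (v - y + w) x] at h6
      rw [← dist_eq_norm x c] at h7 h8
      rw [← dist_eq_norm y x, dist_comm y x] at h8
      have h9 := hR y hy
      have h10 := hR c hcK
      linarith
    have h8 : (σ⁻¹ - 1) * ‖v + w - (2 : ℝ) • c‖ ≤ (σ⁻¹ - 1) * (3 * R + 1) :=
      mul_le_mul_of_nonneg_left h4 (by linarith)
    linarith
  have hneg : ∀ w ∈ lat b, -w ∈ lat b := fun w hw => by
    have := pack_sub_mem (pack_zero_mem b) hw
    rwa [zero_sub] at this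
  have hpK : P2 K v b := by
    refine ⟨hdt0, ?_, ?_⟩
    · intro w hw hw0 z hz y hy hzy
      have key : ∀ z, z ∈ interior K → z - w ∈ interior K → z ∈ K' ∧ z - w ∈ K' := by
        intro z hz hzw
        have a1 := claimA w hw hw0 (z - w) (interior_subset hzw)
        rw [sub_add_cancel] at a1
        have a2 := claimA (-w) (hneg w hw) (neg_ne_zero.2 hw0) z (interior_subset hz)
        rw [← sub_eq_add_neg] at a2
        refine ⟨hKb ⟨interior_subset hz, fun h => ?_⟩, hKb ⟨interior_subset hzw, fun h => ?_⟩⟩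
        · rw [mem_ball, dist_comm] at h
          linarith
        · rw [mem_ball, dist_comm] at h
          linarith
      have hyz : y = z - w := by rw [← hzy]; abel
      subst hyz
      refine hbp.2.1 w hw hw0 z ?_ (z - w) ?_ hzy
      · refine mem_interior.2 ⟨interior K ∩ (fun y => y - w) ⁻¹' interior K, ?_, ?_, hz, hy⟩
        · rintro y ⟨h1, h2⟩
          exact (key y h1 h2).1
        · exact isOpen_interior.inter (isOpen_interior.preimage (by fun_prop))
      · refine mem_interior.2 ⟨interior K ∩ (fun y => y + w) ⁻¹' interior K, ?_, ?_, hy, ?_⟩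
        · rintro y ⟨h1, h2⟩
          have := (key (y + w) h2 (by rwa [add_sub_cancel_right])).2
          rwa [add_sub_cancel_right] at this
        · exact isOpen_interior.inter (isOpen_interior.preimage (by fun_prop))
        · show z - w + w ∈ interior K
          rwa [sub_add_cancel]
    · intro w hw z hz y hy hzy
      have key : ∀ z, z ∈ interior K → v + w - z ∈ interior K → z ∈ K' := by
        intro z hz hzw
        have a1 := claimB w hw (v + w - z) (interior_subset hzw)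
        have e1 : v - (v + w - z) + w = z := by abel
        rw [e1] at a1
        refine hKb ⟨interior_subset hz, fun h => ?_⟩
        rw [mem_ball, dist_comm] at h
        linarith
      have mk : ∀ z, z ∈ interior K → v + w - z ∈ interior K → z ∈ interior K' := by
        intro z hz hzw
        refine mem_interior.2 ⟨interior K ∩ (fun y => v + w - y) ⁻¹' interior K, ?_, ?_, hz, hzw⟩
        · rintro y ⟨h1, h2⟩
          exact key y h1 h2
        · exact isOpen_interior.inter (isOpen_interior.preimage (by fun_prop))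
      have e1 : v + w - z = y := by rw [← hzy]; abel
      have e2 : v + w - y = z := by rw [← hzy]; abel
      exact hbp.2.2 w hw z (mk z hz (by rw [e1]; exact hy)) y (mk y hy (by rw [e2]; exact hz)) hzy
  have hle := le_dLs hK hpK
  unfold D2 at hle hb2
  have h3 : 2 * (volume K / ENNReal.ofReal |dt b|) * (volume K' / volume K) ≤ dLs K * (volume K' / volume K) :=
    mul_le_mul_left hle _
  have h4 : 2 * (volume K / ENNReal.ofReal |dt b|) * (volume K' / volume K) =
      2 * (volume K' / ENNReal.ofReal |dt b|) := by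
    rw [div_eq_mul_inv, div_eq_mul_inv, div_eq_mul_inv]
    calc 2 * (volume K * (ENNReal.ofReal |dt b|)⁻¹) * (volume K' * (volume K)⁻¹)
        = (volume K * (volume K)⁻¹) * (2 * (volume K' * (ENNReal.ofReal |dt b|)⁻¹)) := by ring
      _ = _ := by rw [ENNReal.mul_inv_cancel hv0 hvt, one_mul]
  rw [h4] at h3
  exact absurd hb2 (not_lt.2 h3)

end Run7.h179.EX
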