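import Pool.Agent.Run7.h179.EX.Cpt

/-! Contact sets of dimension at most one. -/

set_option autoImplicit false

namespace Run7.h179.EX

open MeasureTheory Filter Topology Set Metric
open scoped ENNReal
open Pool.Agent.H349R2.Tet Pool.Agent.TH219.DL

/-- half balls at a relatively interior point of a two-dimensional face -/
theorem half_ball {K : Set V} (hK : Convex ℝ K) {x p q c : V} (hx : x ∈ K) (hp : p ∈ K) (hq : q ∈ K)
    (hc : c ∈ K) (f : V →ₗ[ℝ] ℝ) (hfp : f p = f x) (hfq : f q = f x) (hfc : f c < f x)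
    (hli : ∀ s t : ℝ, s • (p - x) + t • (q - x) = 0 → s = 0 ∧ t = 0) :
    ∃ η : ℝ, 0 < η ∧ ∀ v : V, ‖v‖ < η → f v < 0 → (1 / 3 : ℝ) • (x + p + q) + v ∈ interior K := by
  have hli3 : LinearIndependent ℝ ![p - x, q - x, c - x] := by
    rw [Fintype.linearIndependent_iff]
    intro g hg
    rw [Fin.sum_univ_three] at hg
    replace hg : g 0 • (p - x) + g 1 • (q - x) + g 2 • (c - x) = 0 := hg
    have h1 := congrArg f hg
    simp only [map_add, map_smul, map_sub, hfp, hfq, sub_self, smul_eq_mul, mul_zero, zero_add, map_zero] at h1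
    have h2 : g 2 = 0 := by
      rcases mul_eq_zero.1 h1 with h | h
      · exact h
      · linarith
    rw [h2, zero_smul, add_zero] at hg
    obtain ⟨h3, h4⟩ := hli _ _ hg
    intro i
    fin_cases i
    · exact h3
    · exact h4
    · exact h2
  let B := basisOfLinearIndependentOfCardEqFinrank hli3 (by simp)
  have hB0 : B 0 = p - x := by simp [B]
  have hB1 : B 1 = q - x := by simp [B]
  have hB2 : B 2 = c - x := by simp [B]
  have hrep : ∀ v : V, v = B.repr v 0 • (p - x) + B.repr v 1 • (q - x) + B.repr v 2 • (c - x) := by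
    intro v
    have := B.sum_repr v
    rw [Fin.sum_univ_three, hB0, hB1, hB2] at this
    exact this.symm
  have hcont : Continuous (fun v : V => |B.repr v 0| + |B.repr v 1| + |B.repr v 2|) := by
    have h : ∀ i, Continuous (fun v : V => B.repr v i) := fun i => by
      have := LinearMap.continuous_of_finiteDimensional (B.coord i)
      exact this
    exact ((h 0).abs.add (h 1).abs).add (h 2).abs
  have h0 : |B.repr (0 : V) 0| + |B.repr (0 : V) 1| + |B.repr (0 : V) 2| < 1 / 3 := by simp
  obtain ⟨η, hη, hball⟩ := Metric.isOpen_iff.1 (isOpen_Iio.preimage hcont : IsOpen ((fun v : V =>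
    |B.repr v 0| + |B.repr v 1| + |B.repr v 2|) ⁻¹' Iio (1 / 3))) 0 h0
  have key : ∀ v : V, ‖v‖ < η → f v < 0 → (1 / 3 : ℝ) • (x + p + q) + v ∈ K := by
    intro v hv hfv
    have h1 : |B.repr v 0| + |B.repr v 1| + |B.repr v 2| < 1 / 3 := hball (by simpa using hv)
    have h2 := hrep v
    generalize B.repr v 0 = α at h1 h2
    generalize B.repr v 1 = β at h1 h2
    generalize B.repr v 2 = γ at h1 h2
    have h3 : f v = γ * (f c - f x) := by
      rw [h2]
      simp [hfp, hfq]
    have h4 : 0 < γ := by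
      by_contra hcon
      push Not at hcon
      have : 0 ≤ γ * (f c - f x) := mul_nonneg_of_nonpos_of_nonpos hcon (by linarith)
      linarith
    have a1 := abs_lt.1 (lt_of_le_of_lt (le_of_eq rfl) (by have := abs_nonneg β; have := abs_nonneg γ; linarith : |α| < 1 / 3))
    have a2 := abs_lt.1 (by have := abs_nonneg α; have := abs_nonneg γ; linarith : |β| < 1 / 3)
    have a3 := le_abs_self α
    have a4 := le_abs_self β
    have a5 := le_abs_self γ
    have h5 := hK.sum_mem (t := (Finset.univ : Finset (Fin 4)))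
      (w := ![1 / 3 - α - β - γ, 1 / 3 + α, 1 / 3 + β, γ]) (z := ![x, p, q, c]) (by
        intro i _
        fin_cases i
        · show 0 ≤ 1 / 3 - α - β - γ
          linarith
        · show 0 ≤ 1 / 3 + α
          linarith [a1.1]
        · show 0 ≤ 1 / 3 + β
          linarith [a2.1]
        · show 0 ≤ γ
          exact h4.le) (by
        rw [Fin.sum_univ_four]
        show 1 / 3 - α - β - γ + (1 / 3 + α) + (1 / 3 + β) + γ = 1
        ring) (by
        intro i _
        fin_cases i
        · exact hx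
        · exact hp
        · exact hq
        · exact hc)
    rw [Fin.sum_univ_four] at h5
    convert h5 using 1
    show _ = (1 / 3 - α - β - γ) • x + (1 / 3 + α) • p + (1 / 3 + β) • q + γ • c
    rw [h2]
    module
  refine ⟨η, hη, fun v hv hfv => ?_⟩
  refine mem_interior.2 ⟨{z | ‖z - (1 / 3 : ℝ) • (x + p + q)‖ < η ∧ f (z - (1 / 3 : ℝ) • (x + p + q)) < 0}, ?_, ?_, ?_⟩
  · rintro z ⟨h1, h2⟩
    have := key _ h1 h2
    rwa [add_sub_cancel] at this
  · have hf : Continuous f := LinearMap.continuous_of_finiteDimensional f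
    have c1 : Continuous fun z : V => ‖z - (1 / 3 : ℝ) • (x + p + q)‖ := by fun_prop
    have c2 : Continuous fun z : V => f (z - (1 / 3 : ℝ) • (x + p + q)) := hf.comp (by fun_prop)
    exact (isOpen_lt c1 continuous_const).inter (isOpen_lt c2 continuous_const)
  · show _ ∧ _
    rw [add_sub_cancel_left]
    exact ⟨hv, hfv⟩

theorem coll_of_lim {K : Set V} (hKc : Convex ℝ K) (hKi : (interior K).Nonempty) {u x : V} {uk : ℕ → V}
    {rk : ℕ → ℝ} (hlim : Tendsto uk atTop (𝓝 u)) (hr : Tendsto rk atTop (𝓝 0))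
    (hdisj : ∀ z ∈ interior K, z - u ∈ interior K → False)
    (hO : ∀ k, ∃ z ∈ interior K, z - uk k ∈ interior K)
    (hOs : ∀ k, ∀ z ∈ interior K, z - uk k ∈ interior K → dist z x ≤ rk k)
    (hx : x ∈ K) (hxu : x - u ∈ K) {p q : V} (hp : p ∈ K) (hpu : p - u ∈ K) (hq : q ∈ K) (hqu : q - u ∈ K)
    (hli : ∀ s t : ℝ, s • (p - x) + t • (q - x) = 0 → s = 0 ∧ t = 0) : False := by
  obtain ⟨f, a, hf1, hf2⟩ := geometric_hahn_banach_open_open hKc.interior isOpen_interior
    (hKc.interior.translate_preimage_right (-u)) (isOpen_interior.preimage (by fun_prop))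
    (Set.disjoint_left.2 fun z h1 h2 => hdisj z h1 (by
      have : -u + z ∈ interior K := h2
      rwa [neg_add_eq_sub] at this))
  have hf2' : ∀ z ∈ interior K, a < f (z + u) := fun z hz => hf2 _ (by
    show -u + (z + u) ∈ interior K
    have : -u + (z + u) = z := by abel
    rwa [this])
  have hKle : ∀ z ∈ K, f z ≤ a ∧ a ≤ f (z + u) := by
    have h1 : closure (interior K) ⊆ {z | f z ≤ a ∧ a ≤ f (z + u)} := by
      refine closure_minimal (fun z hz => ⟨(hf1 z hz).le, (hf2' z hz).le⟩) ?_
      have c1 : Continuous fun z : V => f z := f.continuous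
      have c2 : Continuous fun z : V => f (z + u) := f.continuous.comp (by fun_prop)
      exact (isClosed_le c1 continuous_const).inter (isClosed_le continuous_const c2)
    intro z hz
    apply h1
    rw [hKc.closure_interior_eq_closure_of_nonempty_interior hKi]
    exact subset_closure hz
  have heq : ∀ z, z ∈ K → z - u ∈ K → f z = a := by
    intro z h1 h2
    have h3 := (hKle _ h2).2
    rw [sub_add_cancel] at h3
    exact le_antisymm (hKle z h1).1 h3
  obtain ⟨c, hc⟩ := hKi
  have hcK := interior_subset hc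
  have hcx := hf1 c hc
  have hcu := hf2' c hc
  rw [map_add] at hcu
  have ex := heq x hx hxu
  have ep := heq p hp hpu
  have eq' := heq q hq hqu
  obtain ⟨η₁, hη₁, hb₁⟩ := half_ball hKc hx hp hq hcK f.toLinearMap (by show f p = f x; rw [ep, ex])
    (by show f q = f x; rw [eq', ex]) (by show f c < f x; rw [ex]; exact hcx) hli
  obtain ⟨η₂, hη₂, hb₂⟩ := half_ball hKc hxu hpu hqu hcK (-f.toLinearMap)
    (by show -f (p - u) = -f (x - u); rw [map_sub, map_sub, ep, ex])
    (by show -f (q - u) = -f (x - u); rw [map_sub, map_sub, eq', ex])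
    (by show -f c < -f (x - u); rw [map_sub, ex]; linarith)
    (by
      intro s t h
      apply hli s t
      rwa [sub_sub_sub_cancel_right, sub_sub_sub_cancel_right] at h)
  have ht : Tendsto (fun k => uk k - u) atTop (𝓝 0) := by
    have := hlim.sub_const u
    rwa [sub_self] at this
  have e1 : ∀ᶠ k in atTop, ‖uk k - u‖ < min η₁ η₂ := by
    have := ht.norm
    rw [norm_zero] at this
    exact this.eventually_lt_const (lt_min hη₁ hη₂)
  have hneg : ∀ k, f (uk k - u) < 0 := by
    intro k
    obtain ⟨z, h1, h2⟩ := hO k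
    have h3 := hf1 z h1
    have h4 := hf2' _ h2
    have h5 : f (uk k - u) = f z - f (z - uk k + u) := by
      rw [← map_sub]
      congr 1
      abel
    rw [h5]
    linarith
  have hhalf : ∀ w : V, ‖(1 / 2 : ℝ) • w‖ ≤ ‖w‖ := by
    intro w
    rw [norm_smul, Real.norm_of_nonneg (by norm_num)]
    linarith [norm_nonneg w]
  have e2 : ∀ᶠ k in atTop, dist ((1 / 3 : ℝ) • (x + p + q) + (1 / 2 : ℝ) • (uk k - u)) x ≤ rk k := by
    filter_upwards [e1] with k hk
    apply hOs k
    · apply hb₁
      · exact (hhalf _).trans_lt (hk.trans_le (min_le_left _ _))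
      · show f ((1 / 2 : ℝ) • (uk k - u)) < 0
        rw [map_smul, smul_eq_mul]
        linarith [hneg k]
    · have h1 := hb₂ ((1 / 2 : ℝ) • (-(uk k - u))) (by
        refine (hhalf _).trans_lt ?_
        rw [norm_neg]
        exact hk.trans_le (min_le_right _ _)) (by
        show -f ((1 / 2 : ℝ) • (-(uk k - u))) < 0
        rw [map_smul, smul_eq_mul, map_neg]
        linarith [hneg k])
      convert h1 using 1
      module
  have e3 : Tendsto (fun k => dist ((1 / 3 : ℝ) • (x + p + q) + (1 / 2 : ℝ) • (uk k - u)) x) atTop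
      (𝓝 (dist ((1 / 3 : ℝ) • (x + p + q) + (1 / 2 : ℝ) • (0 : V)) x)) :=
    ((ht.const_smul _).const_add _).dist tendsto_const_nhds
  have e4 := le_of_tendsto_of_tendsto e3 hr e2
  rw [smul_zero, add_zero] at e4
  have e5 := dist_le_zero.1 e4
  have e6 := hli (1 / 3) (1 / 3) (by
    have : (1 / 3 : ℝ) • (p - x) + (1 / 3 : ℝ) • (q - x) = (1 / 3 : ℝ) • (x + p + q) - x := by module
    rw [this, e5, sub_self])
  norm_num at e6

end Run7.h179.EX
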