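import Pool.Agent.Run7.h179.EX.Sep

/-! Every extreme point of a minimiser is touched with a contact set of dimension at most one. -/

set_option autoImplicit false

namespace Run7.h179.EX

open MeasureTheory Filter Topology Set Metric
open scoped ENNReal
open Pool.Agent.H349R2.Tet Pool.Agent.TH219.DL

theorem ext_not_int {K : Set V} {x : V} (hx : x ∈ K.extremePoints ℝ) : x ∉ interior K := by
  intro h
  obtain ⟨ρ, hρ, hb⟩ := Metric.isOpen_iff.1 isOpen_interior x h
  obtain ⟨e, he⟩ : ∃ e : V, e = fun _ => ρ / 2 := ⟨_, rfl⟩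
  have hen : ‖e‖ < ρ := by
    rw [he]
    refine (pi_norm_lt_iff hρ).2 fun i => ?_
    rw [Real.norm_of_nonneg (by positivity)]
    linarith
  have he0 : e ≠ 0 := by
    intro h0
    have := congrFun (he.symm.trans h0) 0
    simp only [Pi.zero_apply] at this
    linarith
  have h1 : x + e ∈ K := interior_subset (hb (by rw [mem_ball, dist_eq_norm, add_sub_cancel_left]; exact hen))
  have h2 : x - e ∈ K := interior_subset (hb (by rw [mem_ball, dist_eq_norm, sub_sub_cancel_left, norm_neg]; exact hen))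
  have h3 := (mem_extremePoints.1 hx).2 _ h1 _ h2 ⟨1 / 2, 1 / 2, by norm_num, by norm_num, by norm_num, by module⟩
  exact he0 (add_eq_left.1 h3.1)

/-- **Main step.** -/
theorem mainS {K : Set V} (hK : Body K) {x : V} (hx : x ∈ K.extremePoints ℝ)
    (hmin : ∀ r₀ : ℝ, 0 < r₀ → ∃ r : ℝ, 0 < r ∧ r < r₀ ∧ dL K ≤ dL (trunc K x r)) {c : V} {ρ : ℝ} (hρ : 0 < ρ)
    (hball : ball c ρ ⊆ interior K) (hρc : 2 * ρ ≤ dist c x) {r₀ : ℝ} (hr₀ : 0 < r₀) :
    ∃ r : ℝ, 0 < r ∧ r < r₀ ∧ 4 * r < ρ ∧ K \ ball x r ⊆ trunc K x r ∧ ∃ b : Fin 3 → V, Packs (trunc K x r) b ∧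
      dL K < volume K / ENNReal.ofReal |dt b| ∧ (∀ w ∈ lat b, w ≠ 0 → ρ ≤ ‖w‖) ∧
      (volume (closedBall c (ρ / 2))).toReal ≤ |dt b| ∧
      ∃ w ∈ lat b, w ≠ 0 ∧ (∃ z ∈ interior K, z - w ∈ interior K) ∧
        ∀ z ∈ interior K, z - w ∈ interior K → dist z x ≤ r := by
  obtain ⟨c', -, D, hD, hcut⟩ := cut hK hx
  have hfin : dL K ≠ ⊤ := ((dL_le_one hK).trans_lt ENNReal.one_lt_top).ne
  have hne0 : dL K ≠ 0 := (dL_pos hK).ne'
  obtain ⟨r, hr, hrr, hdle⟩ := hmin (min r₀ (min (D / 2) (ρ / 4))) (by positivity)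
  have hrr0 : r < r₀ := hrr.trans_le (min_le_left _ _)
  have hrD : 2 * r < D := by
    have := hrr.trans_le ((min_le_right _ _).trans (min_le_left _ _))
    linarith
  have hrρ : 4 * r < ρ := by
    have := hrr.trans_le ((min_le_right _ _).trans (min_le_right _ _))
    linarith
  obtain ⟨hK'K, hK', hxK', hKb, hvol, -⟩ := hcut r hr hrD
  refine ⟨r, hr, hrr0, hrρ, hKb, ?_⟩
  generalize trunc K x r = K' at hK'K hK' hxK' hKb hvol hdle
  obtain ⟨hv0, hvt⟩ := body_vol hK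
  have ht2 : dL K * (volume K' / volume K) < dL K := by
    have h1 : volume K' / volume K < 1 := by
      rw [ENNReal.div_lt_iff (Or.inl hv0) (Or.inl hvt), one_mul]
      exact hvol
    calc dL K * (volume K' / volume K) < dL K * 1 := (ENNReal.mul_lt_mul_iff_right hne0 hfin).2 h1
      _ = dL K := mul_one _
  have hlt : dL K * (volume K' / volume K) < deltaL K' := by
    rw [← dL_eq]
    exact lt_of_lt_of_le ht2 hdle
  obtain ⟨b, hb⟩ := lt_iSup_iff.1 hlt
  obtain ⟨hbp, hbd⟩ := lt_iSup_iff.1 hb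
  have hli : LinearIndependent ℝ b := hbp.1
  rw [dens_eq b hli K' hK'.1] at hbd
  have hbK' : ball c ρ ⊆ K' := by
    intro z hz
    refine hKb ⟨interior_subset (hball hz), fun h => ?_⟩
    rw [mem_ball] at hz h
    have h1 := dist_triangle_left c x z
    linarith
  have hbK'i : ball c ρ ⊆ interior K' := interior_maximal hbK' isOpen_ball
  have hp := (packs_iff K' b).1 hbp
  have hnorm : ∀ w ∈ lat b, w ≠ 0 → ρ ≤ ‖w‖ := by
    intro w hw hw0
    by_contra hcon
    push Not at hcon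
    refine hp.2 w hw hw0 ⟨c, hbK'i (mem_ball_self hρ), hbK'i ?_⟩
    rw [mem_ball, dist_eq_norm, sub_sub_cancel_left, norm_neg]
    exact hcon
  have hdK : dL K < volume K / ENNReal.ofReal |dt b| := by
    by_contra hcon
    push Not at hcon
    have h3 : volume K / ENNReal.ofReal |dt b| * (volume K' / volume K) ≤ dL K * (volume K' / volume K) :=
      mul_le_mul_left hcon _
    have h4 : volume K / ENNReal.ofReal |dt b| * (volume K' / volume K) = volume K' / ENNReal.ofReal |dt b| := by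
      rw [div_eq_mul_inv, div_eq_mul_inv, div_eq_mul_inv]
      calc volume K * (ENNReal.ofReal |dt b|)⁻¹ * (volume K' * (volume K)⁻¹)
          = (volume K * (volume K)⁻¹) * (volume K' * (ENNReal.ofReal |dt b|)⁻¹) := by ring
        _ = _ := by rw [ENNReal.mul_inv_cancel hv0 hvt, one_mul]
    rw [h4] at h3
    exact absurd hbd (not_lt.2 h3)
  have hvolb : (volume (closedBall c (ρ / 2))).toReal ≤ |dt b| := by
    have hsub : closedBall c (ρ / 2) ⊆ K' := (closedBall_subset_ball (by linarith)).trans hbK'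
    have hpb : Packs (closedBall c (ρ / 2)) b := packs_mono hsub hbp
    have h1 := dens_le_one (convex_closedBall c (ρ / 2)) hpb
    rw [dens_eq b hpb.1 _ (isCompact_closedBall _ _)] at h1
    have hpos : 0 < |dt b| := abs_pos.2 hp.1
    have h2 : volume (closedBall c (ρ / 2)) ≤ ENNReal.ofReal |dt b| := by
      rwa [ENNReal.div_le_iff (by rw [ne_eq, ENNReal.ofReal_eq_zero, not_le]; exact hpos) ENNReal.ofReal_ne_top,
        one_mul] at h1
    exact ENNReal.toReal_le_of_le_ofReal hpos.le h2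
  refine ⟨b, hbp, hdK, hnorm, hvolb, ?_⟩
  have hnp : ¬ Packs K b := by
    intro h
    have h1 : dens K b ≤ dL K := by
      rw [dL_eq]
      exact le_iSup₂_of_le b h le_rfl
    rw [dens_eq b hli K hK.1] at h1
    exact absurd hdK (not_lt.2 h1)
  have hex : ∃ w ∈ lat b, w ≠ 0 ∧ ∃ z, z ∈ interior K ∧ z - w ∈ interior K := by
    by_contra hcon
    push Not at hcon
    apply hnp
    rw [packs_iff]
    refine ⟨hp.1, ?_⟩
    rintro w hw hw0 ⟨z, hz, hzw⟩
    exact hcon w hw hw0 z hz hzw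
  obtain ⟨w, hw, hw0, z₀, hz₀, hz₀w⟩ := hex
  have hopen : IsOpen (interior K ∩ (closedBall x r)ᶜ) := isOpen_interior.inter isClosed_closedBall.isOpen_compl
  have hint : interior K ∩ (closedBall x r)ᶜ ⊆ interior K' := by
    refine interior_maximal ?_ hopen
    rintro z ⟨h1, h2⟩
    exact hKb ⟨interior_subset h1, fun h => h2 (ball_subset_closedBall h)⟩
  have hor : ∀ z ∈ interior K, z - w ∈ interior K → dist z x ≤ r ∨ dist (z - w) x ≤ r := by
    intro z h1 h2
    by_contra hcon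
    push Not at hcon
    exact hp.2 w hw hw0 ⟨z, hint ⟨h1, fun h => absurd (mem_closedBall.1 h) (not_le.2 hcon.1)⟩,
      hint ⟨h2, fun h => absurd (mem_closedBall.1 h) (not_le.2 hcon.2)⟩⟩
  have hwn := hnorm w hw hw0
  have hmid : ∀ z₁ z₂ : V, z₁ ∈ interior K → z₁ - w ∈ interior K → z₂ ∈ interior K → z₂ - w ∈ interior K →
      dist z₁ x ≤ r → dist (z₂ - w) x ≤ r → False := by
    intro z₁ z₂ h1 h1w h2 h2w d1 d2
    have hm1 : (1 / 2 : ℝ) • z₁ + (1 / 2 : ℝ) • z₂ ∈ interior K :=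
      hK.2.1.interior h1 h2 (by norm_num) (by norm_num) (by norm_num)
    have hm2 : ((1 / 2 : ℝ) • z₁ + (1 / 2 : ℝ) • z₂) - w ∈ interior K := by
      have := hK.2.1.interior h1w h2w (by norm_num : (0:ℝ) ≤ 1 / 2) (by norm_num : (0:ℝ) ≤ 1 / 2) (by norm_num)
      convert this using 1
      module
    rw [dist_eq_norm] at d1 d2
    have hw2 : ∀ y : V, ‖(1 / 2 : ℝ) • y‖ = ‖y‖ / 2 := fun y => by
      rw [norm_smul, Real.norm_of_nonneg (by norm_num)]
      ring
    have h3 : ‖w‖ / 2 ≤ 2 * r := by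
      rcases hor _ hm1 hm2 with h | h
      · rw [dist_eq_norm] at h
        have e : (1 / 2 : ℝ) • w = ((1 / 2 : ℝ) • z₁ + (1 / 2 : ℝ) • z₂ - x) - (1 / 2 : ℝ) • (z₁ - x)
            - (1 / 2 : ℝ) • (z₂ - w - x) := by module
        have h5 := congrArg norm e
        rw [hw2] at h5
        have h6 := norm_sub_le ((1 / 2 : ℝ) • z₁ + (1 / 2 : ℝ) • z₂ - x - (1 / 2 : ℝ) • (z₁ - x)) ((1 / 2 : ℝ) • (z₂ - w - x))
        have h7 := norm_sub_le ((1 / 2 : ℝ) • z₁ + (1 / 2 : ℝ) • z₂ - x) ((1 / 2 : ℝ) • (z₁ - x))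
        rw [hw2] at h6 h7
        linarith
      · rw [dist_eq_norm] at h
        have e : (1 / 2 : ℝ) • w = (1 / 2 : ℝ) • (z₁ - x) + (1 / 2 : ℝ) • (z₂ - w - x)
            - ((1 / 2 : ℝ) • z₁ + (1 / 2 : ℝ) • z₂ - w - x) := by module
        have h5 := congrArg norm e
        rw [hw2] at h5
        have h6 := norm_sub_le ((1 / 2 : ℝ) • (z₁ - x) + (1 / 2 : ℝ) • (z₂ - w - x)) ((1 / 2 : ℝ) • z₁ + (1 / 2 : ℝ) • z₂ - w - x)
        have h7 := norm_add_le ((1 / 2 : ℝ) • (z₁ - x)) ((1 / 2 : ℝ) • (z₂ - w - x))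
        rw [hw2, hw2] at h7
        linarith
    linarith
  by_cases hall : ∀ z ∈ interior K, z - w ∈ interior K → dist z x ≤ r
  · exact ⟨w, hw, hw0, ⟨z₀, hz₀, hz₀w⟩, hall⟩
  push Not at hall
  obtain ⟨z₂, h2, h2w, h2d⟩ := hall
  have d2 : dist (z₂ - w) x ≤ r := (hor z₂ h2 h2w).resolve_left (not_le.2 h2d)
  refine ⟨-w, by simpa using pack_sub_mem (pack_zero_mem b) hw, neg_ne_zero.2 hw0, ⟨z₀ - w, hz₀w, by
    rwa [sub_neg_eq_add, sub_add_cancel]⟩, ?_⟩
  intro z h1 h1w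
  rw [sub_neg_eq_add] at h1w
  have hz' : z + w - w ∈ interior K := by rwa [add_sub_cancel_right]
  rcases hor (z + w) h1w hz' with h | h
  · exact (hmid _ _ h1w hz' h2 h2w h d2).elim
  · rwa [add_sub_cancel_right] at h

end Run7.h179.EX
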