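import Pool.Agent.Run7.h179.EX.Fce
import Pool.Agent.Run7.h179.EX.CptD

/-! Double lattice packings: contact sets of dimension at most one, or reflection in the extreme point. -/

set_option autoImplicit false

namespace Run7.h179.EX

open MeasureTheory Filter Topology Set Metric
open scoped ENNReal
open Pool.Agent.H349R2.Tet Pool.Agent.TH219.DL

/-- **Main step.** -/
theorem mainSD {K : Set V} (hK : Body K) {x : V} (hx : x ∈ K.extremePoints ℝ)
    (hmin : ∀ r₀ : ℝ, 0 < r₀ → ∃ r : ℝ, 0 < r ∧ r < r₀ ∧ dLs K ≤ dLs (trunc K x r)) {c : V} {ρ : ℝ} (hρ : 0 < ρ)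
    (hball : ball c ρ ⊆ interior K) (hρc : 2 * ρ ≤ dist c x) {r₀ : ℝ} (hr₀ : 0 < r₀) :
    ∃ r : ℝ, 0 < r ∧ r < r₀ ∧ K \ ball x r ⊆ trunc K x r ∧ ∃ (v : V) (b : Fin 3 → V), P2 (trunc K x r) v b ∧
      dLs K < D2 K b ∧ (∀ w ∈ lat b, w ≠ 0 → ρ ≤ ‖w‖) ∧
      (volume (closedBall c (ρ / 2))).toReal ≤ |dt b| ∧
      ((∃ w ∈ lat b, w ≠ 0 ∧ (∃ z ∈ interior K, z - w ∈ interior K) ∧
        ∀ z ∈ interior K, z - w ∈ interior K → dist z x ≤ r) ∨
       ∃ s ∈ lat b, dist ((1 / 2 : ℝ) • (v + s)) x ≤ r) := by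
  obtain ⟨c', -, D, hD, hcut⟩ := cut hK hx
  have hfin : dLs K ≠ ⊤ := dLs_fin hK
  have hne0 : dLs K ≠ 0 := (dLs_pos hK).ne'
  obtain ⟨r, hr, hrr, hdle⟩ := hmin (min r₀ (min (D / 2) (ρ / 4))) (by positivity)
  have hrr0 : r < r₀ := hrr.trans_le (min_le_left _ _)
  have hrD : 2 * r < D := by
    have := hrr.trans_le ((min_le_right _ _).trans (min_le_left _ _))
    linarith
  have hrρ : 4 * r < ρ := by
    have := hrr.trans_le ((min_le_right _ _).trans (min_le_right _ _))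
    linarith
  obtain ⟨hK'K, hK', hxK', hKb, hvol, -⟩ := hcut r hr hrD
  refine ⟨r, hr, hrr0, hKb, ?_⟩
  generalize trunc K x r = K' at hK'K hK' hxK' hKb hvol hdle
  obtain ⟨hv0, hvt⟩ := body_vol hK
  have ht2 : dLs K * (volume K' / volume K) < dLs K := by
    have h1 : volume K' / volume K < 1 := by
      rw [ENNReal.div_lt_iff (Or.inl hv0) (Or.inl hvt), one_mul]
      exact hvol
    calc dLs K * (volume K' / volume K) < dLs K * 1 := (ENNReal.mul_lt_mul_iff_right hne0 hfin).2 h1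
      _ = dLs K := mul_one _
  have hlt : dLs K * (volume K' / volume K) < dLs K' := lt_of_lt_of_le ht2 hdle
  rw [dLs_eq hK'] at hlt
  obtain ⟨v, hv⟩ := lt_iSup_iff.1 hlt
  obtain ⟨b, hb⟩ := lt_iSup_iff.1 hv
  obtain ⟨hbp, hbd⟩ := lt_iSup_iff.1 hb
  have hbK' : ball c ρ ⊆ K' := by
    intro z hz
    refine hKb ⟨interior_subset (hball hz), fun h => ?_⟩
    rw [mem_ball] at hz h
    have h1 := dist_triangle_left c x z
    linarith
  have hbK'i : ball c ρ ⊆ interior K' := interior_maximal hbK' isOpen_ball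
  have hnorm : ∀ w ∈ lat b, w ≠ 0 → ρ ≤ ‖w‖ := by
    intro w hw hw0
    by_contra hcon
    push Not at hcon
    refine hbp.2.1 w hw hw0 c (hbK'i (mem_ball_self hρ)) (c - w) (hbK'i ?_) (by abel)
    rw [mem_ball, dist_eq_norm, sub_sub_cancel_left, norm_neg]
    exact hcon
  have hdK : dLs K < D2 K b := by
    by_contra hcon
    push Not at hcon
    have h3 : D2 K b * (volume K' / volume K) ≤ dLs K * (volume K' / volume K) := mul_le_mul_left hcon _
    have h4 : D2 K b * (volume K' / volume K) = D2 K' b := by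
      unfold D2
      rw [div_eq_mul_inv, div_eq_mul_inv, div_eq_mul_inv]
      calc 2 * (volume K * (ENNReal.ofReal |dt b|)⁻¹) * (volume K' * (volume K)⁻¹)
          = (volume K * (volume K)⁻¹) * (2 * (volume K' * (ENNReal.ofReal |dt b|)⁻¹)) := by ring
        _ = _ := by rw [ENNReal.mul_inv_cancel hv0 hvt, one_mul]
    rw [h4] at h3
    exact absurd hbd (not_lt.2 h3)
  have hvolb : (volume (closedBall c (ρ / 2))).toReal ≤ |dt b| := by
    have hsub : closedBall c (ρ / 2) ⊆ K' := (closedBall_subset_ball (by linarith)).trans hbK'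
    have hpb : Packs (closedBall c (ρ / 2)) b := packs_mono hsub hbp.packs
    have h1 := dens_le_one (convex_closedBall c (ρ / 2)) hpb
    rw [dens_eq b hpb.1 _ (isCompact_closedBall _ _)] at h1
    have hpos : 0 < |dt b| := abs_pos.2 hbp.1
    have h2 : volume (closedBall c (ρ / 2)) ≤ ENNReal.ofReal |dt b| := by
      rwa [ENNReal.div_le_iff (by rw [ne_eq, ENNReal.ofReal_eq_zero, not_le]; exact hpos) ENNReal.ofReal_ne_top,
        one_mul] at h1
    exact ENNReal.toReal_le_of_le_ofReal hpos.le h2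
  refine ⟨v, b, hbp, hdK, hnorm, hvolb, ?_⟩
  have hnp : ¬ P2 K v b := fun h => absurd hdK (not_lt.2 (le_dLs hK h))
  have hopen : IsOpen (interior K ∩ (closedBall x r)ᶜ) := isOpen_interior.inter isClosed_closedBall.isOpen_compl
  have hint : interior K ∩ (closedBall x r)ᶜ ⊆ interior K' := by
    refine interior_maximal ?_ hopen
    rintro z ⟨h1, h2⟩
    exact hKb ⟨interior_subset h1, fun h => h2 (ball_subset_closedBall h)⟩
  by_cases hex : ∃ w ∈ lat b, w ≠ 0 ∧ ∃ z, z ∈ interior K ∧ z - w ∈ interior K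
  · left
    obtain ⟨w, hw, hw0, z₀, hz₀, hz₀w⟩ := hex
    have hor : ∀ z ∈ interior K, z - w ∈ interior K → dist z x ≤ r ∨ dist (z - w) x ≤ r := by
      intro z h1 h2
      by_contra hcon
      push Not at hcon
      exact hbp.2.1 w hw hw0 z (hint ⟨h1, fun h => absurd (mem_closedBall.1 h) (not_le.2 hcon.1)⟩) (z - w)
        (hint ⟨h2, fun h => absurd (mem_closedBall.1 h) (not_le.2 hcon.2)⟩) (by abel)
    have hwn := hnorm w hw hw0
    have hmid : ∀ z₁ z₂ : V, z₁ ∈ interior K → z₁ - w ∈ interior K → z₂ ∈ interior K → z₂ - w ∈ interior K →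
        dist z₁ x ≤ r → dist (z₂ - w) x ≤ r → False := by
      intro z₁ z₂ h1 h1w h2 h2w d1 d2
      have hm1 : (1 / 2 : ℝ) • z₁ + (1 / 2 : ℝ) • z₂ ∈ interior K :=
        hK.2.1.interior h1 h2 (by norm_num) (by norm_num) (by norm_num)
      have hm2 : ((1 / 2 : ℝ) • z₁ + (1 / 2 : ℝ) • z₂) - w ∈ interior K := by
        have := hK.2.1.interior h1w h2w (by norm_num : (0:ℝ) ≤ 1 / 2) (by norm_num : (0:ℝ) ≤ 1 / 2) (by norm_num)
        convert this using 1
        module
      rw [dist_eq_norm] at d1 d2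
      have hw2 : ∀ y : V, ‖(1 / 2 : ℝ) • y‖ = ‖y‖ / 2 := fun y => by
        rw [norm_smul, Real.norm_of_nonneg (by norm_num)]
        ring
      have h3 : ‖w‖ / 2 ≤ 2 * r := by
        rcases hor _ hm1 hm2 with h | h
        · rw [dist_eq_norm] at h
          have e : (1 / 2 : ℝ) • w = ((1 / 2 : ℝ) • z₁ + (1 / 2 : ℝ) • z₂ - x) - (1 / 2 : ℝ) • (z₁ - x)
              - (1 / 2 : ℝ) • (z₂ - w - x) := by module
          have h5 := congrArg norm e
          rw [hw2] at h5
          have h6 := norm_sub_le ((1 / 2 : ℝ) • z₁ + (1 / 2 : ℝ) • z₂ - x - (1 / 2 : ℝ) • (z₁ - x)) ((1 / 2 : ℝ) • (z₂ - w - x))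
          have h7 := norm_sub_le ((1 / 2 : ℝ) • z₁ + (1 / 2 : ℝ) • z₂ - x) ((1 / 2 : ℝ) • (z₁ - x))
          rw [hw2] at h6 h7
          linarith
        · rw [dist_eq_norm] at h
          have e : (1 / 2 : ℝ) • w = (1 / 2 : ℝ) • (z₁ - x) + (1 / 2 : ℝ) • (z₂ - w - x)
              - ((1 / 2 : ℝ) • z₁ + (1 / 2 : ℝ) • z₂ - w - x) := by module
          have h5 := congrArg norm e
          rw [hw2] at h5
          have h6 := norm_sub_le ((1 / 2 : ℝ) • (z₁ - x) + (1 / 2 : ℝ) • (z₂ - w - x)) ((1 / 2 : ℝ) • z₁ + (1 / 2 : ℝ) • z₂ - w - x)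
          have h7 := norm_add_le ((1 / 2 : ℝ) • (z₁ - x)) ((1 / 2 : ℝ) • (z₂ - w - x))
          rw [hw2, hw2] at h7
          linarith
      linarith
    by_cases hall : ∀ z ∈ interior K, z - w ∈ interior K → dist z x ≤ r
    · exact ⟨w, hw, hw0, ⟨z₀, hz₀, hz₀w⟩, hall⟩
    push Not at hall
    obtain ⟨z₂, h2, h2w, h2d⟩ := hall
    have d2 : dist (z₂ - w) x ≤ r := (hor z₂ h2 h2w).resolve_left (not_le.2 h2d)
    refine ⟨-w, by simpa using pack_sub_mem (pack_zero_mem b) hw, neg_ne_zero.2 hw0, ⟨z₀ - w, hz₀w, by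
      rwa [sub_neg_eq_add, sub_add_cancel]⟩, ?_⟩
    intro z h1 h1w
    rw [sub_neg_eq_add] at h1w
    have hz' : z + w - w ∈ interior K := by rwa [add_sub_cancel_right]
    rcases hor (z + w) h1w hz' with h | h
    · exact (hmid _ _ h1w hz' h2 h2w h d2).elim
    · rwa [add_sub_cancel_right] at h
  · right
    have hex2 : ∃ s ∈ lat b, ∃ z ∈ interior K, ∃ y ∈ interior K, z + y = v + s := by
      by_contra hcon
      push Not at hcon hex
      refine hnp ⟨hbp.1, fun s hs hs0 z hz y hy hzy => ?_, fun s hs z hz y hy => hcon s hs z hz y hy⟩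
      refine hex s hs hs0 z hz ?_
      have : z - s = y := by rw [← hzy]; abel
      rwa [this]
    obtain ⟨s, hs, z, hz, y, hy, hzy⟩ := hex2
    refine ⟨s, hs, ?_⟩
    by_contra hcon
    push Not at hcon
    have hm : (1 / 2 : ℝ) • (v + s) ∈ interior K := by
      have := hK.2.1.interior hz hy (by norm_num : (0:ℝ) ≤ 1 / 2) (by norm_num : (0:ℝ) ≤ 1 / 2) (by norm_num)
      rw [← hzy, smul_add]
      exact this
    have hm' := hint ⟨hm, fun h => absurd (mem_closedBall.1 h) (not_le.2 hcon)⟩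
    exact hbp.2.2 s hs _ hm' _ hm' (by module)

end Run7.h179.EX
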